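import Mathlib

/-!
Closure properties of `Computable` (lists, bounded quantifiers) and of total functions that are
recursive in an oracle.
-/

namespace Pool.Agent.Lib45

section ListPure

variable {β σ τ : Type*}

theorem foldl_aux (l : List β) (s : σ) (h : σ × β → σ) (n : ℕ) :
    Nat.rec (motive := fun _ => σ) s
      (fun k IH => Option.casesOn (l[k]?) IH (fun b => h (IH, b))) n
      = (l.take n).foldl (fun s b => h (s, b)) s := by
  induction n with
  | zero => simp
  | succ n ih =>
    simp only [ih]
    cases hk : l[n]? with
    | none =>
      have hlen : l.length ≤ n := by simpa using hk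
      rw [List.take_of_length_le hlen, List.take_of_length_le (by omega)]
    | some b =>
      rw [List.take_add_one, hk]
      simp

theorem foldl_concat_map (l : List β) (g : β → τ) (acc : List τ) :
    l.foldl (fun s b => s ++ [g b]) acc = acc ++ l.map g := by
  induction l generalizing acc with
  | nil => simp
  | cons b l ih => simp [ih]

theorem foldl_filter (l : List β) (g : β → Bool) (acc : List β) :
    l.foldl (fun s b => bif g b then s ++ [b] else s) acc = acc ++ l.filter g := by
  induction l generalizing acc with
  | nil => simp
  | cons b l ih =>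
    rw [List.foldl_cons, ih]
    cases hb : g b <;> simp [hb]

theorem foldl_all (l : List β) (g : β → Bool) (acc : Bool) :
    l.foldl (fun s b => s && g b) acc = (acc && l.all g) := by
  induction l generalizing acc with
  | nil => simp
  | cons b l ih =>
    rw [List.foldl_cons, ih]
    simp [Bool.and_assoc]

theorem rec_exists (P : ℕ → Bool) (n : ℕ) :
    Nat.rec (motive := fun _ => Bool) false (fun k IH => IH || P k) n = true ↔
      ∃ k < n, P k = true := by
  induction n with
  | zero => simp
  | succ n ih =>
    rw [Bool.or_eq_true, ih]
    constructor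
    · rintro (⟨k, hk, h⟩ | h)
      · exact ⟨k, by omega, h⟩
      · exact ⟨n, by omega, h⟩
    · rintro ⟨k, hk, h⟩
      rcases Nat.lt_succ_iff_lt_or_eq.1 hk with hk | rfl
      · exact Or.inl ⟨k, hk, h⟩
      · exact Or.inr h

/-- bounded existential quantifier as a Boolean function -/
def bex (P : ℕ → Bool) (n : ℕ) : Bool :=
  Nat.rec (motive := fun _ => Bool) false (fun k IH => IH || P k) n

theorem bex_iff {P : ℕ → Bool} {n : ℕ} : bex P n = true ↔ ∃ k < n, P k = true :=
  rec_exists P n

end ListPure

section ListComp

variable {α β σ τ : Type*} [Primcodable α] [Primcodable β] [Primcodable σ] [Primcodable τ]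

theorem computable_foldl {f : α → List β} {g : α → σ} {h : α → σ × β → σ}
    (hf : Computable f) (hg : Computable g) (hh : Computable₂ h) :
    Computable fun a => (f a).foldl (fun s b => h a (s, b)) (g a) := by
  have key : Computable fun a => Nat.rec (motive := fun _ => σ) (g a)
      (fun k IH => Option.casesOn ((f a)[k]?) IH (fun b => h a (IH, b))) (f a).length := by
    refine Computable.nat_rec (f := fun a => (f a).length)
      (h := fun a (p : ℕ × σ) => Option.casesOn ((f a)[p.1]?) p.2 (fun b => h a (p.2, b)))
      (Computable.list_length.comp hf) hg ?_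
    refine Computable.option_casesOn (o := fun (q : α × (ℕ × σ)) => (f q.1)[q.2.1]?)
      (f := fun q => q.2.2) (g := fun q b => h q.1 (q.2.2, b)) ?_ ?_ ?_
    · exact Computable.list_getElem?.comp (hf.comp Computable.fst)
        (Computable.fst.comp Computable.snd)
    · exact Computable.snd.comp Computable.snd
    · exact hh.comp (Computable.fst.comp Computable.fst)
        (Computable.pair (Computable.snd.comp (Computable.snd.comp Computable.fst))
          Computable.snd)
  refine key.of_eq fun a => ?_
  rw [foldl_aux (f a) (g a) (h a) (f a).length, List.take_length]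

theorem computable_map {f : α → List β} {g : α → β → τ}
    (hf : Computable f) (hg : Computable₂ g) :
    Computable fun a => (f a).map (g a) := by
  have : Computable fun a => (f a).foldl
      (fun s b => (fun (a : α) (p : List τ × β) => p.1 ++ [g a p.2]) a (s, b)) ([] : List τ) := by
    refine computable_foldl (σ := List τ) (g := fun _ => [])
      (h := fun (a : α) (p : List τ × β) => p.1 ++ [g a p.2]) hf (Computable.const _) ?_
    exact Computable.list_concat.comp (Computable.fst.comp Computable.snd)
      (hg.comp Computable.fst (Computable.snd.comp Computable.snd))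
  refine this.of_eq fun a => ?_
  simpa using foldl_concat_map (f a) (g a) []

theorem computable_filter {f : α → List β} {g : α → β → Bool}
    (hf : Computable f) (hg : Computable₂ g) :
    Computable fun a => (f a).filter (g a) := by
  have : Computable fun a => (f a).foldl
      (fun s b => (fun (a : α) (p : List β × β) => bif g a p.2 then p.1 ++ [p.2] else p.1)
        a (s, b)) ([] : List β) := by
    refine computable_foldl (σ := List β) (g := fun _ => [])
      (h := fun (a : α) (p : List β × β) => bif g a p.2 then p.1 ++ [p.2] else p.1)
      hf (Computable.const _) ?_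
    refine Computable.cond (hg.comp Computable.fst (Computable.snd.comp Computable.snd)) ?_ ?_
    · exact Computable.list_concat.comp (Computable.fst.comp Computable.snd)
        (Computable.snd.comp Computable.snd)
    · exact Computable.fst.comp Computable.snd
  refine this.of_eq fun a => ?_
  simpa using foldl_filter (f a) (g a) []

theorem computable_all {f : α → List β} {g : α → β → Bool}
    (hf : Computable f) (hg : Computable₂ g) :
    Computable fun a => (f a).all (g a) := by
  have : Computable fun a => (f a).foldl
      (fun s b => (fun (a : α) (p : Bool × β) => p.1 && g a p.2) a (s, b)) true := by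
    refine computable_foldl (σ := Bool) (g := fun _ => true)
      (h := fun (a : α) (p : Bool × β) => p.1 && g a p.2) hf (Computable.const _) ?_
    exact Primrec.and.to_comp.comp (Computable.fst.comp Computable.snd)
      (hg.comp Computable.fst (Computable.snd.comp Computable.snd))
  refine this.of_eq fun a => ?_
  simpa using foldl_all (f a) (g a) true

theorem computable_bex {f : α → ℕ} {P : α → ℕ → Bool} (hf : Computable f)
    (hP : Computable₂ P) : Computable fun a => bex (P a) (f a) := by
  unfold bex
  refine Computable.nat_rec (h := fun a (p : ℕ × Bool) => p.2 || P a p.1) hf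
    (Computable.const _) ?_
  exact Primrec.or.to_comp.comp (Computable.snd.comp Computable.snd)
    (hP.comp Computable.fst (Computable.fst.comp Computable.snd))

end ListComp

section Oracle

/-- a total function on `ℕ` recursive in the oracle set `O` -/
def TotIn (O : Set (ℕ →. ℕ)) (f : ℕ → ℕ) : Prop := RecursiveIn O (fun n => Part.some (f n))

variable {O : Set (ℕ →. ℕ)}

theorem totIn_iff {f : ℕ → ℕ} :
    TotIn O f ↔ Nat.RecursiveIn O (fun n => Part.some (f n)) := by
  unfold TotIn; exact RecursiveIn.iff_nat

theorem TotIn.of_computable {f : ℕ → ℕ} (hf : Computable f) : TotIn O f :=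
  hf.computableIn

theorem TotIn.comp {f g : ℕ → ℕ} (hf : TotIn O f) (hg : TotIn O g) :
    TotIn O (fun n => f (g n)) := by
  rw [totIn_iff] at *
  refine (Nat.RecursiveIn.comp hf hg).of_eq fun n => ?_
  simp

theorem TotIn.pair {f g : ℕ → ℕ} (hf : TotIn O f) (hg : TotIn O g) :
    TotIn O (fun n => Nat.pair (f n) (g n)) := by
  rw [totIn_iff] at *
  refine (Nat.RecursiveIn.pair hf hg).of_eq fun n => ?_
  simp [Seq.seq]

/-- composition with a binary computable function -/
theorem TotIn.comp₂ {F : ℕ → ℕ → ℕ} (hF : Computable₂ F) {f g : ℕ → ℕ} (hf : TotIn O f)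
    (hg : TotIn O g) : TotIn O (fun n => F (f n) (g n)) := by
  have h1 : TotIn O (fun p => F p.unpair.1 p.unpair.2) := by
    apply TotIn.of_computable
    exact hF.comp (Computable.fst.comp Computable.unpair) (Computable.snd.comp Computable.unpair)
  have := h1.comp (hf.pair hg)
  simpa using this

theorem TotIn.prec {f h : ℕ → ℕ} (hf : TotIn O f) (hh : TotIn O h) :
    TotIn O (fun p => Nat.rec (motive := fun _ => ℕ) (f p.unpair.1)
      (fun y IH => h (Nat.pair p.unpair.1 (Nat.pair y IH))) p.unpair.2) := by
  rw [totIn_iff] at *
  refine (Nat.RecursiveIn.prec hf hh).of_eq fun p => ?_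
  have key : ∀ a n : ℕ, (Nat.rec (motive := fun _ => Part ℕ) (Part.some (f a))
      (fun y IH => IH.bind fun i => Part.some (h (Nat.pair a (Nat.pair y i)))) n) =
      Part.some (Nat.rec (motive := fun _ => ℕ) (f a)
      (fun y IH => h (Nat.pair a (Nat.pair y IH))) n) := by
    intro a n
    induction n with
    | zero => rfl
    | succ n ih => simp only [ih, Part.bind_some]
  exact key _ _

theorem TotIn.find {P : ℕ → ℕ → Prop} [∀ a n, Decidable (P a n)]
    (hP : TotIn O (fun p => if P p.unpair.1 p.unpair.2 then 0 else 1))
    (hex : ∀ a, ∃ n, P a n) : TotIn O (fun a => Nat.find (hex a)) := by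
  rw [totIn_iff] at *
  refine (Nat.RecursiveIn.rfind hP).of_eq_tot fun a => ?_
  refine Nat.mem_rfind.2 ⟨?_, ?_⟩
  · simp [Nat.find_spec (hex a)]
  · intro m hm
    have := Nat.find_min (hex a) hm
    simp [this]

end Oracle

end Pool.Agent.Lib45
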