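import Mathlib

/-!
Basic intervals of the Cantor set.
-/

namespace Pool.Agent.Lib45

theorem third_mem {x : ℝ} (hx : x ∈ cantorSet) : x / 3 ∈ cantorSet := by
  rw [cantorSet_eq_union_halves]; exact Or.inl ⟨x, hx, rfl⟩

theorem two_third_mem {x : ℝ} (hx : x ∈ cantorSet) : (2 + x) / 3 ∈ cantorSet := by
  rw [cantorSet_eq_union_halves]; exact Or.inr ⟨x, hx, rfl⟩

theorem cantor_cases {x : ℝ} (hx : x ∈ cantorSet) :
    (x ≤ 1 / 3 ∧ 3 * x ∈ cantorSet) ∨ (2 / 3 ≤ x ∧ 3 * x - 2 ∈ cantorSet) := by
  rw [cantorSet_eq_union_halves] at hx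
  rcases hx with ⟨y, hy, rfl⟩ | ⟨y, hy, rfl⟩
  · left
    have := cantorSet_subset_unitInterval hy
    refine ⟨?_, ?_⟩
    · simp only
      linarith [this.2]
    · have h : 3 * (y / 3) = y := by ring
      simp only [h]; exact hy
  · right
    have := cantorSet_subset_unitInterval hy
    refine ⟨?_, ?_⟩
    · simp only
      linarith [this.1]
    · have h : 3 * ((2 + y) / 3) - 2 = y := by ring
      simp only [h]; exact hy

theorem one_mem_cantor : (1 : ℝ) ∈ cantorSet := by
  have h : ∀ n, (1 : ℝ) ∈ preCantorSet n := by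
    intro n
    induction n with
    | zero => simp
    | succ n ih => exact Or.inr ⟨1, ih, by norm_num⟩
  exact Set.mem_iInter.2 h

open Classical in
/-- right endpoint of the basic interval of level `n` containing `x` -/
noncomputable def cr : ℕ → ℝ → ℝ
  | 0, _ => 1
  | n + 1, x => if x ≤ 1 / 3 then cr n (3 * x) / 3 else (2 + cr n (3 * x - 2)) / 3

theorem cr_succ_left {n : ℕ} {x : ℝ} (h : x ≤ 1 / 3) : cr (n + 1) x = cr n (3 * x) / 3 := by
  rw [cr, if_pos h]

theorem cr_succ_right {n : ℕ} {x : ℝ} (h : 2 / 3 ≤ x) :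
    cr (n + 1) x = (2 + cr n (3 * x - 2)) / 3 := by
  rw [cr, if_neg (by linarith)]

theorem cr_ge (n : ℕ) : ∀ {x : ℝ}, x ∈ cantorSet → x ≤ cr n x := by
  induction n with
  | zero => intro x hx; exact (cantorSet_subset_unitInterval hx).2
  | succ n ih =>
    intro x hx
    rcases cantor_cases hx with ⟨h1, h2⟩ | ⟨h1, h2⟩
    · rw [cr_succ_left h1]; have := ih h2; linarith
    · rw [cr_succ_right h1]; have := ih h2; linarith

theorem cr_le (n : ℕ) : ∀ {x : ℝ}, x ∈ cantorSet → cr n x ≤ x + (1 / 3) ^ n := by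
  induction n with
  | zero =>
    intro x hx
    have := (cantorSet_subset_unitInterval hx).1
    simp only [cr, pow_zero]; linarith
  | succ n ih =>
    intro x hx
    rcases cantor_cases hx with ⟨h1, h2⟩ | ⟨h1, h2⟩
    · rw [cr_succ_left h1, pow_succ]; have := ih h2; linarith
    · rw [cr_succ_right h1, pow_succ]; have := ih h2; linarith

theorem cr_mem (n : ℕ) : ∀ {x : ℝ}, x ∈ cantorSet → cr n x ∈ cantorSet := by
  induction n with
  | zero => intro x _; exact one_mem_cantor
  | succ n ih =>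
    intro x hx
    rcases cantor_cases hx with ⟨h1, h2⟩ | ⟨h1, h2⟩
    · rw [cr_succ_left h1]; exact third_mem (ih h2)
    · rw [cr_succ_right h1]; exact two_third_mem (ih h2)

theorem cr_gap (n : ℕ) : ∀ {x x' : ℝ}, x ∈ cantorSet → x' ∈ cantorSet → cr n x < x' →
    cr n x + (1 / 3) ^ n ≤ x' := by
  induction n with
  | zero =>
    intro x x' _ hx' h
    have := (cantorSet_subset_unitInterval hx').2
    simp only [cr] at h
    linarith
  | succ n ih =>
    intro x x' hx hx' h
    have hp : (0 : ℝ) < (1 / 3) ^ n := by positivity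
    have hp1 : ((1 : ℝ) / 3) ^ n ≤ 1 := pow_le_one₀ (by norm_num) (by norm_num)
    rcases cantor_cases hx with ⟨h1, h2⟩ | ⟨h1, h2⟩
    · rw [cr_succ_left h1] at h ⊢
      have h5 := (cantorSet_subset_unitInterval (cr_mem n h2)).2
      rw [pow_succ]
      rcases cantor_cases hx' with ⟨h3, h4⟩ | ⟨h3, h4⟩
      · have := ih h2 h4 (by linarith); linarith
      · linarith
    · rw [cr_succ_right h1] at h ⊢
      have h5 := cr_ge n h2
      rw [pow_succ]
      rcases cantor_cases hx' with ⟨h3, h4⟩ | ⟨h3, h4⟩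
      · linarith
      · have := ih h2 h4 (by linarith); linarith

theorem cr_same (n : ℕ) : ∀ {x x' : ℝ}, x ∈ cantorSet → x' ∈ cantorSet → x ≤ x' →
    x' ≤ cr n x → cr n x' = cr n x := by
  induction n with
  | zero => intro x x' _ _ _ _; rfl
  | succ n ih =>
    intro x x' hx hx' h h'
    rcases cantor_cases hx with ⟨h1, h2⟩ | ⟨h1, h2⟩
    · rw [cr_succ_left h1] at h' ⊢
      have h5 := (cantorSet_subset_unitInterval (cr_mem n h2)).2
      rcases cantor_cases hx' with ⟨h3, h4⟩ | ⟨h3, h4⟩
      · rw [cr_succ_left h3, ih h2 h4 (by linarith) (by linarith)]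
      · exfalso; linarith
    · rw [cr_succ_right h1] at h' ⊢
      rcases cantor_cases hx' with ⟨h3, h4⟩ | ⟨h3, h4⟩
      · exfalso; linarith
      · rw [cr_succ_right h3, ih h2 h4 (by linarith) (by linarith)]

theorem cr_succ_le (n : ℕ) : ∀ {x : ℝ}, x ∈ cantorSet → cr (n + 1) x ≤ cr n x := by
  induction n with
  | zero =>
    intro x hx
    exact (cantorSet_subset_unitInterval (cr_mem 1 hx)).2
  | succ n ih =>
    intro x hx
    rcases cantor_cases hx with ⟨h1, h2⟩ | ⟨h1, h2⟩
    · rw [cr_succ_left h1, cr_succ_left h1]; have := ih h2; linarith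
    · rw [cr_succ_right h1, cr_succ_right h1]; have := ih h2; linarith

theorem cr_anti {n m : ℕ} (h : n ≤ m) {x : ℝ} (hx : x ∈ cantorSet) : cr m x ≤ cr n x := by
  induction m, h using Nat.le_induction with
  | base => exact le_rfl
  | succ m _ ih => exact (cr_succ_le m hx).trans ih

theorem cr_close (n : ℕ) {x x' : ℝ} (hx : x ∈ cantorSet) (hx' : x' ∈ cantorSet)
    (h : |x - x'| < (1 / 3) ^ n) : cr n x = cr n x' := by
  rw [abs_lt] at h
  rcases le_total x x' with h1 | h1
  · have h2 : x' ≤ cr n x := by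
      by_contra hcon
      push Not at hcon
      have := cr_gap n hx hx' hcon
      have := cr_ge n hx
      linarith
    exact (cr_same n hx hx' h1 h2).symm
  · have h2 : x ≤ cr n x' := by
      by_contra hcon
      push Not at hcon
      have := cr_gap n hx' hx hcon
      have := cr_ge n hx'
      linarith
    exact cr_same n hx' hx h1 h2

theorem cr_same_coarser {n m : ℕ} (h : n ≤ m) {x x' : ℝ} (hx : x ∈ cantorSet)
    (hx' : x' ∈ cantorSet) (he : cr m x = cr m x') : cr n x = cr n x' := by
  rcases le_total x x' with h1 | h1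
  · have h2 : x' ≤ cr n x := by
      calc x' ≤ cr m x' := cr_ge m hx'
        _ = cr m x := he.symm
        _ ≤ cr n x := cr_anti h hx
    exact (cr_same n hx hx' h1 h2).symm
  · have h2 : x ≤ cr n x' := by
      calc x ≤ cr m x := cr_ge m hx
        _ = cr m x' := he
        _ ≤ cr n x' := cr_anti h hx'
    exact cr_same n hx' hx h1 h2

end Pool.Agent.Lib45
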