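import Pool.Agent.Lib_helper45.FanCantor

/-!
The explicit U-turn curves.
-/

namespace Pool.Agent.Lib45

/-- clamp to `[0,1]` -/
noncomputable def clamp (t : ℝ) : ℝ := max 0 (min t 1)

theorem clamp_of_le {t : ℝ} (h : t ≤ 0) : clamp t = 0 := by
  unfold clamp
  exact max_eq_left ((min_le_left _ _).trans h)

theorem clamp_of_ge {t : ℝ} (h : 1 ≤ t) : clamp t = 1 := by
  unfold clamp
  rw [min_eq_right h]; exact max_eq_right zero_le_one

theorem clamp_of_mem {t : ℝ} (h0 : 0 ≤ t) (h1 : t ≤ 1) : clamp t = t := by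
  unfold clamp
  rw [min_eq_left h1]; exact max_eq_right h0

theorem continuous_clamp : Continuous clamp :=
  continuous_const.max (continuous_id.min continuous_const)

/-- width parameter -/
noncomputable def dl (j : ℕ) : ℝ := (1 / 4) ^ (j + 1)

theorem dl_pos (j : ℕ) : 0 < dl j := by unfold dl; positivity

theorem dl_le (j : ℕ) : dl j ≤ 1 / 4 := by
  unfold dl
  rw [pow_succ]
  have : ((1 : ℝ) / 4) ^ j ≤ 1 := pow_le_one₀ (by norm_num) (by norm_num)
  linarith

/-- the position of the descending part -/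
noncomputable def XX (N : ℕ) (x : ℝ) : ℝ := cr N x + (1 / 3) ^ N * (3 / 4 - x / 4)

/-- the height of the crest above `1` -/
noncomputable def kap (j : ℕ) (x : ℝ) : ℝ := (1 / 4) ^ j * (2 - x)

/-- first coordinate of the curve -/
noncomputable def Gu (N j : ℕ) (x y : ℝ) : ℝ := x + (XX N x - x) * clamp ((y - dl j) / dl j)

/-- second coordinate of the curve -/
noncomputable def Gv (j : ℕ) (x y : ℝ) : ℝ :=
  1 + kap j x * clamp (y / dl j) - (kap j x + 1 / 2) * clamp ((y - 2 * dl j) / (1 - 2 * dl j))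

theorem unit_of_cantor {x : ℝ} (hx : x ∈ cantorSet) : 0 ≤ x ∧ x ≤ 1 :=
  cantorSet_subset_unitInterval hx

section

variable {N j : ℕ} {x y : ℝ}

theorem cr_lt_XX (hx : x ∈ cantorSet) : cr N x < XX N x := by
  unfold XX
  have h := unit_of_cantor hx
  have : (0 : ℝ) < (1 / 3) ^ N * (3 / 4 - x / 4) := by
    apply mul_pos (by positivity); linarith [h.2]
  linarith

theorem lt_XX (hx : x ∈ cantorSet) : x < XX N x := (cr_ge N hx).trans_lt (cr_lt_XX hx)

theorem XX_ge (hx : x ∈ cantorSet) : cr N x + (1 / 3) ^ N * (1 / 2) ≤ XX N x := by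
  unfold XX
  have h := unit_of_cantor hx
  have hp : (0 : ℝ) < (1 / 3) ^ N := by positivity
  nlinarith [h.2]

theorem XX_le (hx : x ∈ cantorSet) : XX N x ≤ cr N x + (1 / 3) ^ N * (3 / 4) := by
  unfold XX
  have h := unit_of_cantor hx
  have hp : (0 : ℝ) < (1 / 3) ^ N := by positivity
  nlinarith [h.1]

theorem XX_lt (hx : x ∈ cantorSet) : XX N x < cr N x + (1 / 3) ^ N := by
  have h := XX_le (N := N) hx
  have hp : (0 : ℝ) < (1 / 3) ^ N := by positivity
  linarith

theorem XX_sub_le (hx : x ∈ cantorSet) : XX N x - x ≤ 2 * (1 / 3) ^ N := by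
  have h := XX_lt (N := N) hx
  have h2 := cr_le N hx
  linarith

theorem XX_sub_le_two (hx : x ∈ cantorSet) : XX N x - x ≤ 2 := by
  have h := XX_sub_le (N := N) hx
  have : ((1 : ℝ) / 3) ^ N ≤ 1 := pow_le_one₀ (by norm_num) (by norm_num)
  linarith

theorem XX_not_mem (hx : x ∈ cantorSet) : XX N x ∉ cantorSet := by
  intro h
  have h1 := cr_gap N hx h (cr_lt_XX hx)
  have h2 := XX_lt (N := N) hx
  linarith

theorem kap_pos (hx : x ∈ cantorSet) : 0 < kap j x := by
  unfold kap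
  have h := unit_of_cantor hx
  apply mul_pos (by positivity); linarith [h.2]

theorem kap_le (hx : x ∈ cantorSet) : kap j x ≤ 2 * (1 / 4) ^ j := by
  unfold kap
  have h := unit_of_cantor hx
  have hp : (0 : ℝ) < (1 / 4) ^ j := by positivity
  nlinarith [h.1]

theorem kap_ge (hx : x ∈ cantorSet) : (1 / 4) ^ j ≤ kap j x := by
  unfold kap
  have h := unit_of_cantor hx
  have hp : (0 : ℝ) < (1 / 4) ^ j := by positivity
  nlinarith [h.2]

theorem kap_le_two (hx : x ∈ cantorSet) : kap j x ≤ 2 := by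
  have h := kap_le (j := j) hx
  have : ((1 : ℝ) / 4) ^ j ≤ 1 := pow_le_one₀ (by norm_num) (by norm_num)
  linarith

/-- region 1 -/
theorem G_case1 (h0 : 0 ≤ y) (h1 : y ≤ dl j) :
    Gu N j x y = x ∧ Gv j x y = 1 + kap j x * (y / dl j) := by
  have hd := dl_pos j
  have hd' := dl_le j
  have e1 : clamp ((y - dl j) / dl j) = 0 :=
    clamp_of_le (div_nonpos_of_nonpos_of_nonneg (by linarith) hd.le)
  have e2 : clamp (y / dl j) = y / dl j :=
    clamp_of_mem (div_nonneg h0 hd.le) ((div_le_one hd).2 h1)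
  have e3 : clamp ((y - 2 * dl j) / (1 - 2 * dl j)) = 0 :=
    clamp_of_le (div_nonpos_of_nonpos_of_nonneg (by linarith) (by linarith))
  unfold Gu Gv
  rw [e1, e2, e3]
  constructor <;> ring

/-- region 2 -/
theorem G_case2 (h0 : dl j ≤ y) (h1 : y ≤ 2 * dl j) :
    Gu N j x y = x + (XX N x - x) * ((y - dl j) / dl j) ∧ Gv j x y = 1 + kap j x := by
  have hd := dl_pos j
  have hd' := dl_le j
  have e1 : clamp ((y - dl j) / dl j) = (y - dl j) / dl j :=
    clamp_of_mem (div_nonneg (by linarith) hd.le) ((div_le_one hd).2 (by linarith))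
  have e2 : clamp (y / dl j) = 1 := clamp_of_ge ((one_le_div hd).2 h0)
  have e3 : clamp ((y - 2 * dl j) / (1 - 2 * dl j)) = 0 :=
    clamp_of_le (div_nonpos_of_nonpos_of_nonneg (by linarith) (by linarith))
  unfold Gu Gv
  rw [e1, e2, e3]
  constructor <;> ring

/-- region 3 -/
theorem G_case3 (h0 : 2 * dl j ≤ y) (h1 : y ≤ 1) :
    Gu N j x y = XX N x ∧
      Gv j x y = 1 + kap j x - (kap j x + 1 / 2) * ((y - 2 * dl j) / (1 - 2 * dl j)) := by
  have hd := dl_pos j
  have hd' := dl_le j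
  have e1 : clamp ((y - dl j) / dl j) = 1 := clamp_of_ge ((one_le_div hd).2 (by linarith))
  have e2 : clamp (y / dl j) = 1 := clamp_of_ge ((one_le_div hd).2 (by linarith))
  have e3 : clamp ((y - 2 * dl j) / (1 - 2 * dl j)) = (y - 2 * dl j) / (1 - 2 * dl j) :=
    clamp_of_mem (div_nonneg (by linarith) (by linarith))
      ((div_le_one (by linarith)).2 (by linarith))
  unfold Gu Gv
  rw [e1, e2, e3]
  constructor <;> ring

theorem G_zero : Gu N j x 0 = x ∧ Gv j x 0 = 1 := by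
  have := G_case1 (N := N) (j := j) (x := x) le_rfl (dl_pos j).le
  simpa using this

theorem regions (j : ℕ) (h0 : 0 ≤ y) (h1 : y ≤ 1) :
    (0 ≤ y ∧ y ≤ dl j) ∨ (dl j ≤ y ∧ y ≤ 2 * dl j) ∨ (2 * dl j ≤ y ∧ y ≤ 1) := by
  rcases le_total y (dl j) with h | h
  · exact Or.inl ⟨h0, h⟩
  · rcases le_total y (2 * dl j) with h' | h'
    · exact Or.inr (Or.inl ⟨h, h'⟩)
    · exact Or.inr (Or.inr ⟨h', h1⟩)

theorem frac3 (h0 : 2 * dl j ≤ y) (h1 : y ≤ 1) :
    0 ≤ (y - 2 * dl j) / (1 - 2 * dl j) ∧ (y - 2 * dl j) / (1 - 2 * dl j) ≤ 1 := by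
  have hd' := dl_le j
  exact ⟨div_nonneg (by linarith) (by linarith), (div_le_one (by linarith)).2 (by linarith)⟩

theorem frac2 (h0 : dl j ≤ y) (h1 : y ≤ 2 * dl j) :
    0 ≤ (y - dl j) / dl j ∧ (y - dl j) / dl j ≤ 1 := by
  have hd := dl_pos j
  exact ⟨div_nonneg (by linarith) hd.le, (div_le_one hd).2 (by linarith)⟩

theorem frac1 (h0 : 0 ≤ y) (h1 : y ≤ dl j) : 0 ≤ y / dl j ∧ y / dl j ≤ 1 := by
  have hd := dl_pos j
  exact ⟨div_nonneg h0 hd.le, (div_le_one hd).2 h1⟩

/-- the shape of the curve -/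
theorem G_shape (hx : x ∈ cantorSet) (h0 : 0 ≤ y) (h1 : y ≤ 1) :
    x ≤ Gu N j x y ∧ Gu N j x y ≤ XX N x ∧ 1 / 2 ≤ Gv j x y ∧ Gv j x y ≤ 1 + kap j x ∧
    ((Gu N j x y = x ∧ 1 ≤ Gv j x y ∧ (0 < y → 1 < Gv j x y)) ∨ Gv j x y = 1 + kap j x ∨
      Gu N j x y = XX N x) := by
  have hX := lt_XX (N := N) hx
  have hk := kap_pos (j := j) hx
  have hd := dl_pos j
  rcases regions j h0 h1 with ⟨ha, hb⟩ | ⟨ha, hb⟩ | ⟨ha, hb⟩
  · obtain ⟨e1, e2⟩ := G_case1 (N := N) (j := j) (x := x) ha hb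
    obtain ⟨f1, f2⟩ := frac1 (j := j) ha hb
    have f3 : 0 ≤ kap j x * (y / dl j) := mul_nonneg hk.le f1
    have f4 : kap j x * (y / dl j) ≤ kap j x := mul_le_of_le_one_right hk.le f2
    rw [e1, e2]
    refine ⟨le_rfl, hX.le, by linarith, by linarith, Or.inl ⟨rfl, by linarith, fun hy => ?_⟩⟩
    have : 0 < kap j x * (y / dl j) := mul_pos hk (div_pos hy hd)
    linarith
  · obtain ⟨e1, e2⟩ := G_case2 (N := N) (j := j) (x := x) ha hb
    obtain ⟨f1, f2⟩ := frac2 (j := j) ha hb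
    rw [e1, e2]
    have f3 : 0 ≤ (XX N x - x) * ((y - dl j) / dl j) := mul_nonneg (by linarith) f1
    have f4 : (XX N x - x) * ((y - dl j) / dl j) ≤ XX N x - x :=
      mul_le_of_le_one_right (by linarith) f2
    exact ⟨by linarith, by linarith, by linarith, le_rfl, Or.inr (Or.inl rfl)⟩
  · obtain ⟨e1, e2⟩ := G_case3 (N := N) (j := j) (x := x) ha hb
    obtain ⟨f1, f2⟩ := frac3 (j := j) ha hb
    rw [e1, e2]
    have f3 : 0 ≤ (kap j x + 1 / 2) * ((y - 2 * dl j) / (1 - 2 * dl j)) :=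
      mul_nonneg (by linarith) f1
    have f4 : (kap j x + 1 / 2) * ((y - 2 * dl j) / (1 - 2 * dl j)) ≤ kap j x + 1 / 2 :=
      mul_le_of_le_one_right (by linarith) f2
    exact ⟨hX.le, le_rfl, by linarith, by linarith, Or.inr (Or.inr rfl)⟩

/-- the curve is injective -/
theorem G_inj (hx : x ∈ cantorSet) {y' : ℝ} (h0 : 0 ≤ y) (h1 : y ≤ 1) (h0' : 0 ≤ y')
    (h1' : y' ≤ 1) (hu : Gu N j x y = Gu N j x y') (hv : Gv j x y = Gv j x y') : y = y' := by
  have hX := lt_XX (N := N) hx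
  have hk := kap_pos (j := j) hx
  have hd := dl_pos j
  have hd' := dl_le j
  have hd2 : 0 < 1 - 2 * dl j := by linarith
  wlog hyy : y ≤ y' generalizing y y' with H
  · exact (H h0' h1' h0 h1 hu.symm hv.symm (le_of_not_ge hyy)).symm
  rcases regions j h0 h1 with ⟨ha, hb⟩ | ⟨ha, hb⟩ | ⟨ha, hb⟩
  · obtain ⟨e1, e2⟩ := G_case1 (N := N) (j := j) (x := x) ha hb
    rcases regions j h0' h1' with ⟨ha', hb'⟩ | ⟨ha', hb'⟩ | ⟨ha', hb'⟩
    · obtain ⟨e1', e2'⟩ := G_case1 (N := N) (j := j) (x := x) ha' hb'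
      rw [e2, e2'] at hv
      have : y / dl j = y' / dl j := mul_left_cancel₀ hk.ne' (by linarith)
      exact (div_left_inj' hd.ne').1 this
    · obtain ⟨e1', e2'⟩ := G_case2 (N := N) (j := j) (x := x) ha' hb'
      rw [e1, e1'] at hu
      rw [e2, e2'] at hv
      have h3 : (y' - dl j) / dl j = 0 := by
        have : (XX N x - x) * ((y' - dl j) / dl j) = 0 := by linarith
        rcases mul_eq_zero.1 this with h | h
        · linarith
        · exact h
      have h4 : y' = dl j := by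
        rcases div_eq_zero_iff.1 h3 with h | h <;> linarith
      have h5 : y / dl j = 1 := mul_left_cancel₀ hk.ne' (by linarith)
      rw [div_eq_one_iff_eq hd.ne'] at h5
      rw [h4, h5]
    · obtain ⟨e1', e2'⟩ := G_case3 (N := N) (j := j) (x := x) ha' hb'
      rw [e1, e1'] at hu
      linarith
  · obtain ⟨e1, e2⟩ := G_case2 (N := N) (j := j) (x := x) ha hb
    rcases regions j h0' h1' with ⟨ha', hb'⟩ | ⟨ha', hb'⟩ | ⟨ha', hb'⟩
    · have h3 : y = dl j := by linarith
      have h4 : y' = dl j := by linarith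
      rw [h3, h4]
    · obtain ⟨e1', e2'⟩ := G_case2 (N := N) (j := j) (x := x) ha' hb'
      rw [e1, e1'] at hu
      have : (y - dl j) / dl j = (y' - dl j) / dl j :=
        mul_left_cancel₀ (sub_pos.2 hX).ne' (by linarith)
      have := (div_left_inj' hd.ne').1 this
      linarith
    · obtain ⟨e1', e2'⟩ := G_case3 (N := N) (j := j) (x := x) ha' hb'
      rw [e1, e1'] at hu
      rw [e2, e2'] at hv
      have h3 : (y - dl j) / dl j = 1 :=
        mul_left_cancel₀ (sub_pos.2 hX).ne' (by linarith)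
      rw [div_eq_one_iff_eq hd.ne'] at h3
      have h4 : (y' - 2 * dl j) / (1 - 2 * dl j) = 0 := by
        have : (kap j x + 1 / 2) * ((y' - 2 * dl j) / (1 - 2 * dl j)) = 0 := by linarith
        rcases mul_eq_zero.1 this with h | h
        · linarith
        · exact h
      rcases div_eq_zero_iff.1 h4 with h | h <;> linarith
  · obtain ⟨e1, e2⟩ := G_case3 (N := N) (j := j) (x := x) ha hb
    obtain ⟨e1', e2'⟩ := G_case3 (N := N) (j := j) (x := x) (ha.trans hyy) h1'
    rw [e2, e2'] at hv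
    have h3 : (y - 2 * dl j) / (1 - 2 * dl j) = (y' - 2 * dl j) / (1 - 2 * dl j) :=
      mul_left_cancel₀ (show kap j x + 1 / 2 ≠ 0 by linarith) (by linarith)
    have := (div_left_inj' hd2.ne').1 h3
    linarith

/-- closeness to the straight segment -/
theorem G_close (hx : x ∈ cantorSet) (h0 : 0 ≤ y) (h1 : y ≤ 1) :
    |Gu N j x y - x| ≤ 2 * (1 / 3) ^ N ∧
      |Gv j x y - (1 - y / 2)| ≤ 3 * (1 / 4) ^ j := by
  have hX := lt_XX (N := N) hx
  have hk := kap_pos (j := j) hx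
  have hk2 := kap_le (j := j) hx
  have hd := dl_pos j
  have hd' := dl_le j
  have hdj : dl j ≤ (1 / 4) ^ j := by
    unfold dl
    rw [pow_succ]
    have : (0 : ℝ) < (1 / 4) ^ j := by positivity
    linarith
  constructor
  · obtain ⟨s1, s2, -⟩ := G_shape (N := N) (j := j) hx h0 h1
    have := XX_sub_le (N := N) hx
    rw [abs_le]; constructor <;> linarith
  · rw [abs_le]
    rcases regions j h0 h1 with ⟨ha, hb⟩ | ⟨ha, hb⟩ | ⟨ha, hb⟩
    · obtain ⟨e1, e2⟩ := G_case1 (N := N) (j := j) (x := x) ha hb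
      obtain ⟨f1, f2⟩ := frac1 (j := j) ha hb
      have f3 : 0 ≤ kap j x * (y / dl j) := mul_nonneg hk.le f1
      have f4 : kap j x * (y / dl j) ≤ kap j x := mul_le_of_le_one_right hk.le f2
      rw [e2]
      constructor <;> linarith
    · obtain ⟨e1, e2⟩ := G_case2 (N := N) (j := j) (x := x) ha hb
      rw [e2]
      constructor <;> linarith
    · obtain ⟨e1, e2⟩ := G_case3 (N := N) (j := j) (x := x) ha hb
      obtain ⟨f1, f2⟩ := frac3 (j := j) ha hb
      rw [e2]
      set s := (y - 2 * dl j) / (1 - 2 * dl j) with hs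
      have hy : y = 2 * dl j + s * (1 - 2 * dl j) := by
        rw [hs, div_mul_cancel₀ _ (by linarith)]; ring
      have hval : 1 + kap j x - (kap j x + 1 / 2) * s - (1 - y / 2) =
          (kap j x + dl j) * (1 - s) := by rw [hy]; ring
      rw [hval]
      have f3 : 0 ≤ (kap j x + dl j) * (1 - s) := mul_nonneg (by linarith) (by linarith)
      have f4 : (kap j x + dl j) * (1 - s) ≤ kap j x + dl j :=
        mul_le_of_le_one_right (by linarith) (by linarith)
      constructor <;> linarith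

/-- behaviour near the starting point -/
theorem G_near (hx : x ∈ cantorSet) (h0 : 0 ≤ y) (h1 : y ≤ 1) :
    |Gu N j x y - x| ≤ 2 * (4 ^ (j + 1) * y) ∧ |Gv j x y - 1| ≤ 2 * (4 ^ (j + 1) * y) := by
  have hX := lt_XX (N := N) hx
  have hX2 := XX_sub_le_two (N := N) hx
  have hk := kap_pos (j := j) hx
  have hk2 := kap_le_two (j := j) hx
  have hd := dl_pos j
  have hd' := dl_le j
  have hdy : 4 ^ (j + 1) * y = y / dl j := by
    unfold dl
    rw [one_div, inv_pow, div_inv_eq_mul, mul_comm]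
  rw [hdy]
  rcases regions j h0 h1 with ⟨ha, hb⟩ | ⟨ha, hb⟩ | ⟨ha, hb⟩
  · obtain ⟨e1, e2⟩ := G_case1 (N := N) (j := j) (x := x) ha hb
    obtain ⟨f1, f2⟩ := frac1 (j := j) ha hb
    have f3 : 0 ≤ kap j x * (y / dl j) := mul_nonneg hk.le f1
    have f4 : kap j x * (y / dl j) ≤ 2 * (y / dl j) := mul_le_mul_of_nonneg_right hk2 f1
    rw [e1, e2, abs_le, abs_le]
    refine ⟨⟨by linarith, by linarith⟩, by linarith, by linarith⟩
  · have f5 : 1 ≤ y / dl j := (one_le_div hd).2 ha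
    obtain ⟨s1, s2, s3, s4, -⟩ := G_shape (N := N) (j := j) hx h0 h1
    rw [abs_le, abs_le]
    refine ⟨⟨by linarith, by linarith⟩, by linarith, by linarith⟩
  · have f5 : 1 ≤ y / dl j := (one_le_div hd).2 (by linarith)
    obtain ⟨s1, s2, s3, s4, -⟩ := G_shape (N := N) (j := j) hx h0 h1
    rw [abs_le, abs_le]
    refine ⟨⟨by linarith, by linarith⟩, by linarith, by linarith⟩

end

end Pool.Agent.Lib45
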