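import Mathlib

/-!
Definitions for the statement on the planarity of the fan built from tilted combs.
-/

namespace Pool.Agent.CombFan

/-- The comb over the Cantor set with height function `h`:
`([0,1] × {0}) ∪ ⋃_{x ∈ K} {x} × [0, h x]`. -/
def comb (h : cantorSet → ℝ) : Set (ℝ × ℝ) :=
  (Set.Icc 0 1 ×ˢ {0}) ∪ ⋃ x : cantorSet, {(x : ℝ)} ×ˢ Set.Icc 0 (h x)

/-- The bottom segment `[0,1] × {0} × {0}`. -/
def bottom : Set (ℝ × ℝ × ℝ) := Set.Icc 0 1 ×ˢ {0} ×ˢ {0}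

/-- The set `C_K = (K × [0,1] × {0}) ∪ ([0,1] × {0} × {0})`. -/
def flatComb : Set (ℝ × ℝ × ℝ) := (cantorSet ×ˢ Set.Icc 0 1 ×ˢ {0}) ∪ bottom

/-- The tilted comb `C_L^m` for `m = n + 1 ≥ 1`: the image of `C_L ∩ (K × [0,1])` under
`(x, y) ↦ (φ x, 1 - y / 2, y / (2 m))`, where `C_L` is the comb with height function `h` and
`φ : K → L`. -/
def tiltedComb (h : cantorSet → ℝ) {L : Set ℝ} (φ : cantorSet → L) (n : ℕ) :
    Set (ℝ × ℝ × ℝ) :=
  {p | ∃ x : cantorSet, ∃ y ∈ Set.Icc (0 : ℝ) 1, ((x : ℝ), y) ∈ comb h ∧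
    p = ((φ x : ℝ), 1 - y / 2, y / (2 * ((n : ℝ) + 1)))}

/-- The dendroid `C = C_K ∪ ⋃_{m ≥ 1} C_L^m`; the sets `K_m` and homeomorphisms `φ_m`, `m ≥ 1`, are
indexed here by `n = m - 1 ≥ 0`. -/
def combSpace (h : cantorSet → ℝ) (L : ℕ → Set ℝ) (φ : ∀ n, cantorSet ≃ₜ L n) :
    Set (ℝ × ℝ × ℝ) :=
  flatComb ∪ ⋃ n : ℕ, tiltedComb h (φ n) n

/-- The equivalence relation on a set `C ⊆ ℝ³` which collapses the bottom segment to a point. -/
def collapse (C : Set (ℝ × ℝ × ℝ)) : Setoid C where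
  r p q := p = q ∨ ((p : ℝ × ℝ × ℝ) ∈ bottom ∧ (q : ℝ × ℝ × ℝ) ∈ bottom)
  iseqv := by
    refine ⟨fun p => Or.inl rfl, ?_, ?_⟩
    · rintro p q (h | ⟨h1, h2⟩)
      · exact Or.inl h.symm
      · exact Or.inr ⟨h2, h1⟩
    · rintro p q r (rfl | ⟨h1, h2⟩) (rfl | ⟨h3, h4⟩)
      · exact Or.inl rfl
      · exact Or.inr ⟨h3, h4⟩
      · exact Or.inr ⟨h1, h2⟩
      · exact Or.inr ⟨h1, h4⟩

/-- The space `F`: the quotient of `C` obtained by collapsing the bottom segment to a point,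
with the quotient topology. -/
abbrev FanSpace (h : cantorSet → ℝ) (L : ℕ → Set ℝ) (φ : ∀ n, cantorSet ≃ₜ L n) : Type :=
  Quotient (collapse (combSpace h L φ))

/-- `p` is a ramification point of `X`: it is the common endpoint of three arcs which pairwise
meet only in `p`. -/
def IsRamificationPoint {X : Type*} [TopologicalSpace X] (p : X) : Prop :=
  ∃ a : Fin 3 → unitInterval → X,
    (∀ i, Continuous (a i) ∧ Function.Injective (a i) ∧ a i 0 = p) ∧
    ∀ i j, i ≠ j → Set.range (a i) ∩ Set.range (a j) = {p}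

/-- A space is planar if it is homeomorphic to a subset of the plane. -/
def IsPlanar (X : Type*) [TopologicalSpace X] : Prop :=
  ∃ f : X → ℝ × ℝ, Topology.IsEmbedding f

end Pool.Agent.CombFan
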