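import Pool.Agent.Lib_helper45.FanMain

/-!
Compactness of the comb space, ramification points, and the final theorem.
-/

namespace Pool.Agent.Lib45

open Pool.Agent.CombFan

theorem compact_union {X : Type*} [TopologicalSpace X] {A : Set X} (hA : IsCompact A)
    {B : ℕ → Set X} (hB : ∀ n, IsCompact (B n))
    (h : ∀ U, IsOpen U → A ⊆ U → ∃ m, ∀ n ≥ m, B n ⊆ U) : IsCompact (A ∪ ⋃ n, B n) := by
  rw [isCompact_iff_finite_subcover] at *
  classical
  intro ι U hU hsub
  obtain ⟨t, ht⟩ := hA U hU (Set.subset_union_left.trans hsub)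
  obtain ⟨m, hm⟩ := h _ (isOpen_biUnion fun i _ => hU i) ht
  have hBm : IsCompact (⋃ n ∈ Finset.range m, B n) :=
    (Finset.range m).isCompact_biUnion fun n _ => hB n
  obtain ⟨t', ht'⟩ := hBm.elim_finite_subcover U hU
    ((Set.iUnion₂_subset fun n _ => Set.subset_iUnion B n).trans
      (Set.subset_union_right.trans hsub))
  refine ⟨t ∪ t', ?_⟩
  rw [Finset.set_biUnion_union]
  rintro x (hx | hx)
  · exact Or.inl (ht hx)
  · rw [Set.mem_iUnion] at hx
    obtain ⟨n, hn⟩ := hx
    rcases lt_or_ge n m with hnm | hnm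
    · right
      apply ht'
      simp only [Set.mem_iUnion]
      exact ⟨n, Finset.mem_range.2 hnm, hn⟩
    · exact Or.inl (hm n hnm hn)

theorem isCompact_bottom : IsCompact bottom :=
  isCompact_Icc.prod (isCompact_singleton.prod isCompact_singleton)

theorem isCompact_flatComb : IsCompact flatComb :=
  (isCompact_cantorSet.prod (isCompact_Icc.prod isCompact_singleton)).union isCompact_bottom

section

variable {h : cantorSet → ℝ} {L : ℕ → Set ℝ} {φ : ∀ n, cantorSet ≃ₜ L n}

theorem isCompact_tilted (husc : UpperSemicontinuous h) (h0 : ∀ x, 0 ≤ h x) (n : ℕ) : IsCompact (tiltedComb h (φ n) n) := by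
  have : CompactSpace cantorSet := isCompact_iff_compactSpace.1 isCompact_cantorSet
  have hcl : IsClosed {q : cantorSet × ℝ | q.2 ≤ h q.1} := by
    have h2 : IsOpen {q : cantorSet × ℝ | h q.1 < q.2} := by
      rw [isOpen_iff_mem_nhds]
      rintro ⟨x, y⟩ hxy
      obtain ⟨c, hc1, hc2⟩ := exists_between (show h x < y from hxy)
      have e1 := husc x c hc1
      have e2 : ∀ᶠ q : cantorSet × ℝ in nhds (x, y), h q.1 < c :=
        (continuous_fst.tendsto (x, y)).eventually e1
      have e3 : ∀ᶠ q : cantorSet × ℝ in nhds (x, y), c < q.2 :=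
        continuous_snd.continuousAt.eventually_const_lt hc2
      filter_upwards [e2, e3] with q hq1 hq2
      exact hq1.trans hq2
    have h3 : {q : cantorSet × ℝ | q.2 ≤ h q.1} = {q : cantorSet × ℝ | h q.1 < q.2}ᶜ := by
      ext q
      simp
    rw [h3]
    exact h2.isClosed_compl
  have hcomp : IsCompact ({q : cantorSet × ℝ | q.2 ≤ h q.1} ∩ (Set.univ ×ˢ Set.Icc 0 1)) :=
    (isCompact_univ.prod isCompact_Icc).inter_left hcl
  have himg : tiltedComb h (φ n) n = (fun q : cantorSet × ℝ =>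
      (((φ n q.1 : L n) : ℝ), 1 - q.2 / 2, q.2 / (2 * ((n : ℝ) + 1)))) ''
      ({q : cantorSet × ℝ | q.2 ≤ h q.1} ∩ (Set.univ ×ˢ Set.Icc 0 1)) := by
    ext p
    constructor
    · rintro ⟨x, y, hy, hxy, rfl⟩
      refine ⟨(x, y), ⟨?_, trivial, hy⟩, rfl⟩
      rcases hxy with hxy | hxy
      · have : y = 0 := hxy.2
        show y ≤ h x
        rw [this]; exact h0 x
      · rw [Set.mem_iUnion] at hxy
        obtain ⟨x', hx1, hx2⟩ := hxy
        have : x = x' := Subtype.ext hx1
        rw [this]; exact hx2.2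
    · rintro ⟨⟨x, y⟩, ⟨hy1, -, hy2⟩, rfl⟩
      refine ⟨x, y, hy2, Or.inr ?_, rfl⟩
      rw [Set.mem_iUnion]
      exact ⟨x, rfl, hy2.1, hy1⟩
  rw [himg]
  apply hcomp.image
  have hφ : Continuous fun q : cantorSet × ℝ => ((φ n q.1 : L n) : ℝ) :=
    continuous_subtype_val.comp ((φ n).continuous.comp continuous_fst)
  exact hφ.prodMk ((continuous_const.sub (continuous_snd.div_const _)).prodMk
    (continuous_snd.div_const _))

theorem isCompact_combSpace (husc : UpperSemicontinuous h) (h0 : ∀ x, 0 ≤ h x) (hL : ∀ n, L n ⊆ cantorSet) : IsCompact (combSpace h L φ) := by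
  refine compact_union isCompact_flatComb (fun n => isCompact_tilted husc h0 n) ?_
  intro U hU hsub
  obtain ⟨δ, hδ, hth⟩ := isCompact_flatComb.exists_thickening_subset_open hU hsub
  obtain ⟨m, hm⟩ := exists_nat_one_div_lt hδ
  refine ⟨m, fun n hn => ?_⟩
  rintro p ⟨x, y, hy, -, rfl⟩
  apply hth
  rw [Metric.mem_thickening_iff]
  refine ⟨((φ n x : ℝ), 1 - y / 2, 0), Or.inl ⟨hL n (φ n x).2, ⟨?_, ?_⟩, rfl⟩, ?_⟩
  · show 0 ≤ 1 - y / 2
    linarith [hy.2]
  · show 1 - y / 2 ≤ 1
    linarith [hy.1]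
  · have hmn : (m : ℝ) ≤ n := by exact_mod_cast hn
    have hb : y / (2 * ((n : ℝ) + 1)) < δ := by
      have hb1 : y / (2 * ((n : ℝ) + 1)) ≤ 1 / ((m : ℝ) + 1) := by
        rw [div_le_div_iff₀ (by positivity) (by positivity)]
        have hm0 : (0 : ℝ) ≤ m := Nat.cast_nonneg m
        nlinarith [hy.1, hy.2]
      exact hb1.trans_lt hm
    have hb0 : 0 ≤ y / (2 * ((n : ℝ) + 1)) := div_nonneg hy.1 (by positivity)
    rw [Prod.dist_eq, Prod.dist_eq]
    simp only [dist_self, dist_zero_right]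
    rw [Real.norm_of_nonneg hb0]
    simp only [hb0, sup_of_le_right]
    exact hb

/-! ### ramification points -/

theorem mk_eq_iff {C : Set (ℝ × ℝ × ℝ)} {p q : C} :
    (Quotient.mk (collapse C) p = Quotient.mk (collapse C) q) ↔
      p = q ∨ ((p : ℝ × ℝ × ℝ) ∈ bottom ∧ (q : ℝ × ℝ × ℝ) ∈ bottom) := by
  rw [Quotient.eq]; rfl

theorem ramification_of_rays {C : Set (ℝ × ℝ × ℝ)} {x : ℝ} {β γ : Fin 3 → ℝ}
    (hβ : ∀ i, 0 < β i ∧ β i ≤ 1 / 2) (hdiff : ∀ i j, i ≠ j → β i * γ j ≠ β j * γ i)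
    (hmem : ∀ i, ∀ t ∈ Set.Icc (0 : ℝ) 1, (x, 1 - t * β i, t * γ i) ∈ C)
    (hp : ((x, 1, 0) : ℝ × ℝ × ℝ) ∈ C) :
    IsRamificationPoint (Quotient.mk (collapse C) ⟨(x, 1, 0), hp⟩) := by
  have hval : ∀ i, ∀ t ∈ Set.Icc (0 : ℝ) 1, (x, 1 - t * β i, t * γ i) ∉ bottom := by
    intro i t ht hb
    have h1 : 1 - t * β i = 0 := hb.2.1
    have h2 : t * β i ≤ 1 * (1 / 2) :=
      mul_le_mul ht.2 (hβ i).2 (hβ i).1.le (by norm_num)
    linarith
  refine ⟨fun i t => Quotient.mk (collapse C)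
    ⟨(x, 1 - (t : ℝ) * β i, (t : ℝ) * γ i), hmem i t t.2⟩, ?_, ?_⟩
  · intro i
    refine ⟨?_, ?_, ?_⟩
    · apply continuous_quotient_mk'.comp
      apply Continuous.subtype_mk
      fun_prop
    · intro s t hst
      rcases mk_eq_iff.1 hst with he | ⟨hb, -⟩
      · have h1 := congrArg (fun q : C => (q : ℝ × ℝ × ℝ).2.1) he
        simp only at h1
        have h2 : (s : ℝ) * β i = t * β i := by linarith
        exact Subtype.ext (mul_right_cancel₀ (hβ i).1.ne' h2)
      · exact absurd hb (hval i s s.2)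
    · apply congrArg
      apply Subtype.ext
      simp
  · intro i j hij
    ext q
    rw [Set.mem_singleton_iff]
    constructor
    · rintro ⟨⟨s, hs⟩, ⟨t, ht⟩⟩
      have hst := hs.trans ht.symm
      rcases mk_eq_iff.1 hst with he | ⟨hb, -⟩
      · have h1 := congrArg (fun q : C => (q : ℝ × ℝ × ℝ).2.1) he
        have h2 := congrArg (fun q : C => (q : ℝ × ℝ × ℝ).2.2) he
        simp only at h1 h2
        have h3 : (s : ℝ) * β i = t * β j := by linarith
        have h4 : (s : ℝ) * (β i * γ j - β j * γ i) = 0 := by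
          have : (s : ℝ) * (β i * γ j) = (t * β j) * γ j := by rw [← h3]; ring
          have h5 : (s : ℝ) * (β j * γ i) = β j * (t * γ j) := by rw [← h2]; ring
          rw [mul_sub, this, h5]; ring
        have h5 : (s : ℝ) = 0 := by
          rcases mul_eq_zero.1 h4 with h6 | h6
          · exact h6
          · exact absurd (sub_eq_zero.1 h6) (hdiff i j hij)
        rw [← hs]
        apply congrArg
        apply Subtype.ext
        simp [h5]
      · exact absurd hb (hval i s s.2)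
    · rintro rfl
      constructor
      · refine ⟨0, ?_⟩
        apply congrArg
        apply Subtype.ext
        simp
      · refine ⟨0, ?_⟩
        apply congrArg
        apply Subtype.ext
        simp

theorem ramification_vertex {C : Set (ℝ × ℝ × ℝ)} (hC : flatComb ⊆ C)
    (hp : ((0, 0, 0) : ℝ × ℝ × ℝ) ∈ C) :
    IsRamificationPoint (Quotient.mk (collapse C) ⟨(0, 0, 0), hp⟩) := by
  let xs : Fin 3 → ℝ := ![0, 1, 1 / 4]
  have hxs : ∀ i, xs i ∈ cantorSet := by
    intro i
    fin_cases i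
    · exact zero_mem_cantorSet
    · exact one_mem_cantor
    · exact quarter_mem_cantorSet
  have hinj : ∀ i j, i ≠ j → xs i ≠ xs j := by
    intro i j hij
    fin_cases i <;> fin_cases j <;> simp [xs] at hij ⊢
  have hmem : ∀ i, ∀ t ∈ Set.Icc (0 : ℝ) 1, (xs i, t, (0 : ℝ)) ∈ C :=
    fun i t ht => hC (Or.inl ⟨hxs i, ht, rfl⟩)
  have h00 : ((0, 0, 0) : ℝ × ℝ × ℝ) ∈ bottom := ⟨⟨le_rfl, zero_le_one⟩, rfl, rfl⟩
  have hb0 : ∀ i, (xs i, (0 : ℝ), (0 : ℝ)) ∈ bottom := fun i => ⟨unit_of_cantor (hxs i), rfl, rfl⟩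
  refine ⟨fun i t => Quotient.mk (collapse C) ⟨(xs i, (t : ℝ), 0), hmem i t t.2⟩, ?_, ?_⟩
  · intro i
    refine ⟨?_, ?_, ?_⟩
    · apply continuous_quotient_mk'.comp
      apply Continuous.subtype_mk
      fun_prop
    · intro s t hst
      rcases mk_eq_iff.1 hst with he | ⟨hb, hb'⟩
      · have h1 := congrArg (fun q : C => (q : ℝ × ℝ × ℝ).2.1) he
        exact Subtype.ext h1
      · have h1 : (s : ℝ) = 0 := hb.2.1
        have h2 : (t : ℝ) = 0 := hb'.2.1
        exact Subtype.ext (h1.trans h2.symm)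
    · rw [mk_eq_iff]
      right
      exact ⟨by simpa using hb0 i, h00⟩
  · intro i j hij
    ext q
    rw [Set.mem_singleton_iff]
    constructor
    · rintro ⟨⟨s, hs⟩, ⟨t, ht⟩⟩
      have hst := hs.trans ht.symm
      rcases mk_eq_iff.1 hst with he | ⟨hb, -⟩
      · have h1 := congrArg (fun q : C => (q : ℝ × ℝ × ℝ).1) he
        exact absurd h1 (hinj i j hij)
      · rw [← hs, mk_eq_iff]
        exact Or.inr ⟨hb, h00⟩
    · rintro rfl
      constructor
      · refine ⟨0, ?_⟩
        rw [mk_eq_iff]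
        exact Or.inr ⟨by simpa using hb0 i, h00⟩
      · refine ⟨0, ?_⟩
        rw [mk_eq_iff]
        exact Or.inr ⟨by simpa using hb0 j, h00⟩

theorem disj_of_fan (h1 : ∀ x, h x ≤ 1) (hL : ∀ n, L n ⊆ cantorSet)
    (hfan : {p : FanSpace h L φ | IsRamificationPoint p}.Subsingleton) :
    ∀ n m x, 0 < HH h L φ n x → 0 < HH h L φ m x → n = m := by
  intro n m x hn hm
  by_contra hnm
  have hxK : x ∈ cantorSet := hL n (mem_of_HH hn)
  have hflat : flatComb ⊆ combSpace h L φ := Set.subset_union_left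
  have hP : ((x, 1, 0) : ℝ × ℝ × ℝ) ∈ combSpace h L φ :=
    hflat (Or.inl ⟨hxK, ⟨zero_le_one, le_rfl⟩, rfl⟩)
  have hV : ((0, 0, 0) : ℝ × ℝ × ℝ) ∈ combSpace h L φ :=
    hflat (Or.inr ⟨⟨le_rfl, zero_le_one⟩, rfl, rfl⟩)
  have hle : ∀ k, HH h L φ k x ≤ 1 := by
    intro k
    unfold HH
    split_ifs
    · exact h1 _
    · exact zero_le_one
  set a := HH h L φ n x with ha
  set b := HH h L φ m x with hb
  have hn1 : (0 : ℝ) < (n : ℝ) + 1 := by positivity
  have hm1 : (0 : ℝ) < (m : ℝ) + 1 := by positivity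
  have hnm' : (n : ℝ) + 1 ≠ (m : ℝ) + 1 := by
    intro h
    apply hnm
    exact_mod_cast (add_right_cancel h)
  have hray : ∀ k : ℕ, 0 < HH h L φ k x → ∀ t ∈ Set.Icc (0 : ℝ) 1,
      (x, 1 - t * (HH h L φ k x / 2), t * (HH h L φ k x / (2 * ((k : ℝ) + 1)))) ∈
        combSpace h L φ := by
    intro k hk t ht
    rcases eq_or_lt_of_le ht.1 with rfl | ht0
    · simpa using hP
    · rw [mem_combSpace h1 hL]
      right
      refine ⟨k, x, t * HH h L φ k x, mul_pos ht0 hk, mul_le_of_le_one_left hk.le ht.2, ?_⟩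
      rw [mul_div_assoc, mul_div_assoc]
  have hram : IsRamificationPoint (Quotient.mk (collapse (combSpace h L φ)) ⟨(x, 1, 0), hP⟩) := by
    refine ramification_of_rays (β := ![1 / 2, a / 2, b / 2])
      (γ := ![0, a / (2 * ((n : ℝ) + 1)), b / (2 * ((m : ℝ) + 1))]) ?_ ?_ ?_ hP
    · intro i
      fin_cases i
      · norm_num
      · exact ⟨half_pos hn, div_le_div_of_nonneg_right (hle n) (by norm_num)⟩
      · exact ⟨half_pos hm, div_le_div_of_nonneg_right (hle m) (by norm_num)⟩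
    · have e1 : 0 < a / (2 * ((n : ℝ) + 1)) := by positivity
      have e2 : 0 < b / (2 * ((m : ℝ) + 1)) := by positivity
      have e3 : a / 2 * (b / (2 * ((m : ℝ) + 1))) ≠ b / 2 * (a / (2 * ((n : ℝ) + 1))) := by
        intro he
        apply hnm'
        have hab : a * b ≠ 0 := mul_ne_zero hn.ne' hm.ne'
        field_simp at he
        linarith
      have z : ∀ c > 0, ∀ d : ℝ, (1 / 2 : ℝ) * c ≠ d * 0 := fun c hc d => by
        rw [mul_zero]; positivity
      intro i j hij
      fin_cases i <;> fin_cases j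
      · exact absurd rfl hij
      · exact z _ e1 _
      · exact z _ e2 _
      · exact (z _ e1 _).symm
      · exact absurd rfl hij
      · exact e3
      · exact (z _ e2 _).symm
      · exact e3.symm
      · exact absurd rfl hij
    · intro i t ht
      fin_cases i
      · refine hflat (Or.inl ⟨hxK, ⟨?_, ?_⟩, ?_⟩)
        · simp; linarith [ht.2]
        · simp; linarith [ht.1]
        · simp
      · exact hray n hn t ht
      · exact hray m hm t ht
  have hver := ramification_vertex hflat hV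
  have heq := hfan hram hver
  rw [mk_eq_iff] at heq
  rcases heq with he | ⟨hb1, -⟩
  · have h3 := congrArg (fun q : combSpace h L φ => (q : ℝ × ℝ × ℝ).2.1) he
    simp at h3
  · have h3 : (1 : ℝ) = 0 := hb1.2.1
    exact one_ne_zero h3

/-- **Main theorem.** -/
theorem planar_of_disj (husc : UpperSemicontinuous h) (h01 : ∀ x, h x ∈ Set.Icc (0 : ℝ) 1)
    (hL : ∀ n, L n ⊆ cantorSet)
    (hdisj : ∀ n m x, 0 < HH h L φ n x → 0 < HH h L φ m x → n = m) :
    IsPlanar (FanSpace h L φ) := by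
  have h0 := fun x => (h01 x).1
  have h1 := fun x => (h01 x).2
  have hH := hooks_of husc h1 hL hdisj
  obtain ⟨N, hN⟩ := hH.exists_levels
  have hCC : combSpace h L φ = CC (HH h L φ) := by
    ext p
    exact mem_combSpace h1 hL
  have hcont : ContinuousOn (EE (HH h L φ) N) (combSpace h L φ) := by
    rw [hCC]; exact continuousOn_EE hH hN
  have hiff : ∀ p q : combSpace h L φ, EE (HH h L φ) N p = EE (HH h L φ) N q ↔
      p = q ∨ ((p : ℝ × ℝ × ℝ) ∈ bottom ∧ (q : ℝ × ℝ × ℝ) ∈ bottom) := by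
    intro p q
    have hp : (p : ℝ × ℝ × ℝ) ∈ CC (HH h L φ) := by rw [← hCC]; exact p.2
    have hq : (q : ℝ × ℝ × ℝ) ∈ CC (HH h L φ) := by rw [← hCC]; exact q.2
    rw [EE_eq_iff hH hN hp hq, Subtype.ext_iff]
  have hcs : CompactSpace (combSpace h L φ) :=
    isCompact_iff_compactSpace.1 (isCompact_combSpace husc h0 hL)
  let f : FanSpace h L φ → ℝ × ℝ := Quotient.lift (fun p : combSpace h L φ => EE (HH h L φ) N p)
    (fun p q hpq => (hiff p q).2 hpq)
  have hf : Continuous f := by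
    apply Continuous.quotient_lift
    exact hcont.domRestrict
  have hinj : Function.Injective f := by
    rintro ⟨p⟩ ⟨q⟩ hpq
    exact Quotient.sound ((hiff p q).1 hpq)
  exact ⟨f, (hf.isClosedEmbedding hinj).isEmbedding⟩

end

end Pool.Agent.Lib45
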