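import Pool.Agent.Lib_helper45.FanPlace
import Pool.Agent.Lib_helper45.FanDefs

/-!
The embedding of the fan in the plane.
-/

namespace Pool.Agent.Lib45

open Pool.Agent.CombFan

section

variable (h : cantorSet → ℝ) (L : ℕ → Set ℝ) (φ : ∀ n, cantorSet ≃ₜ L n)

open Classical in
/-- hook lengths -/
noncomputable def HH (n : ℕ) (x : ℝ) : ℝ :=
  if hx : x ∈ L n then h ((φ n).symm ⟨x, hx⟩) else 0

variable {h L φ}

theorem HH_of_mem {n : ℕ} {x : ℝ} (hx : x ∈ L n) : HH h L φ n x = h ((φ n).symm ⟨x, hx⟩) := by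
  unfold HH; rw [dif_pos hx]

theorem HH_apply {n : ℕ} (x : cantorSet) : HH h L φ n (φ n x) = h x := by
  rw [HH_of_mem (φ n x).2]
  congr 1
  exact (φ n).symm_apply_apply x

theorem mem_of_HH {n : ℕ} {x : ℝ} (hx : 0 < HH h L φ n x) : x ∈ L n := by
  by_contra hcon
  unfold HH at hx
  rw [dif_neg hcon] at hx
  exact lt_irrefl _ hx

theorem mem_combSpace (h1 : ∀ x, h x ≤ 1) (hL : ∀ n, L n ⊆ cantorSet) {p : ℝ × ℝ × ℝ} :
    p ∈ combSpace h L φ ↔ p ∈ flatComb ∨ ∃ (n : ℕ) (x y : ℝ), 0 < y ∧ y ≤ HH h L φ n x ∧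
      p = (x, 1 - y / 2, y / (2 * ((n : ℝ) + 1))) := by
  unfold combSpace
  rw [Set.mem_union, Set.mem_iUnion]
  constructor
  · rintro (hp | ⟨n, x0, y, hy, hxy, rfl⟩)
    · exact Or.inl hp
    · rcases eq_or_lt_of_le hy.1 with rfl | hy0
      · left
        left
        refine ⟨hL n (φ n x0).2, ?_, ?_⟩
        · simp
        · simp
      · right
        refine ⟨n, φ n x0, y, hy0, ?_, rfl⟩
        rw [HH_apply]
        rcases hxy with hxy | hxy
        · exact absurd hxy.2 hy0.ne'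
        · rw [Set.mem_iUnion] at hxy
          obtain ⟨x, hx1, hx2⟩ := hxy
          have : x0 = x := Subtype.ext hx1
          rw [this]; exact hx2.2
  · rintro (hp | ⟨n, x, y, hy, hyx, rfl⟩)
    · exact Or.inl hp
    · right
      have hx := mem_of_HH (lt_of_lt_of_le hy hyx)
      rw [HH_of_mem hx] at hyx
      refine ⟨n, (φ n).symm ⟨x, hx⟩, y, ⟨hy.le, hyx.trans (h1 _)⟩, ?_, ?_⟩
      · right
        rw [Set.mem_iUnion]
        exact ⟨_, rfl, hy.le, hyx⟩
      · rw [(φ n).apply_symm_apply]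

theorem hooks_of (husc : UpperSemicontinuous h) (h1 : ∀ x, h x ≤ 1)
    (hL : ∀ n, L n ⊆ cantorSet)
    (hd : ∀ n m x, 0 < HH h L φ n x → 0 < HH h L φ m x → n = m) : Hooks (HH h L φ) where
  le_one := by
    intro n x
    unfold HH
    split_ifs
    · exact h1 _
    · exact zero_le_one
  mem := fun n x hx => hL n (mem_of_HH hx)
  closed := by
    intro n c hc
    have h2 : IsClosed {x : cantorSet | c ≤ h x} := by
      have := husc.isClosed_preimage c
      exact this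
    have : CompactSpace cantorSet := isCompact_iff_compactSpace.1 isCompact_cantorSet
    have h3 : IsCompact ((fun x : cantorSet => ((φ n x : L n) : ℝ)) '' {x | c ≤ h x}) :=
      h2.isCompact.image (continuous_subtype_val.comp (φ n).continuous)
    have h4 : {x | c ≤ HH h L φ n x} =
        (fun x : cantorSet => ((φ n x : L n) : ℝ)) '' {x | c ≤ h x} := by
      ext x
      constructor
      · intro hx
        have hxL := mem_of_HH (lt_of_lt_of_le hc hx)
        refine ⟨(φ n).symm ⟨x, hxL⟩, ?_, ?_⟩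
        · have hx' : c ≤ HH h L φ n x := hx
          rw [HH_of_mem hxL] at hx'
          exact hx'
        · simp
      · rintro ⟨x0, hx0, rfl⟩
        show c ≤ HH h L φ n (φ n x0)
        rw [HH_apply]
        exact hx0
    rw [h4]
    exact h3.isClosed
  disj := hd

end

/-! ### The map -/

section Map

variable (H : ℕ → ℝ → ℝ) (N : ℕ → ℕ)

/-- index of the hook containing a point -/
noncomputable def nn (p : ℝ × ℝ × ℝ) : ℕ := ⌊(1 - p.2.1) / p.2.2⌋₊ - 1

open Classical in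
/-- the map into the strip -/
noncomputable def E0 (p : ℝ × ℝ × ℝ) : ℝ × ℝ :=
  if p.2.2 = 0 then (p.1, p.2.1)
  else (P1 H N (nn p) p.1 (2 * (1 - p.2.1)), P2 H N (nn p) p.1 (2 * (1 - p.2.1)))

variable {H N}

theorem ratio_hook {n : ℕ} {y : ℝ} (hy : 0 < y) :
    (1 - (1 - y / 2)) / (y / (2 * ((n : ℝ) + 1))) = (n : ℝ) + 1 := by
  have : (0 : ℝ) < (n : ℝ) + 1 := by positivity
  field_simp
  ring

theorem nn_hook {n : ℕ} {x y : ℝ} (hy : 0 < y) :
    nn (x, 1 - y / 2, y / (2 * ((n : ℝ) + 1))) = n := by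
  unfold nn
  simp only
  rw [ratio_hook hy]
  have : ((n : ℝ) + 1) = ((n + 1 : ℕ) : ℝ) := by push_cast; ring
  rw [this, Nat.floor_natCast]
  omega

theorem E0_flat {p : ℝ × ℝ × ℝ} (hp : p.2.2 = 0) : E0 H N p = (p.1, p.2.1) := by
  unfold E0; rw [if_pos hp]

theorem E0_hook {n : ℕ} {x y : ℝ} (hy : 0 < y) :
    E0 H N (x, 1 - y / 2, y / (2 * ((n : ℝ) + 1))) = (P1 H N n x y, P2 H N n x y) := by
  unfold E0
  rw [nn_hook hy]
  have h1 : y / (2 * ((n : ℝ) + 1)) ≠ 0 := by positivity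
  rw [if_neg h1]
  have h2 : 2 * (1 - (1 - y / 2)) = y := by ring
  simp only [h2]

/-- uniform closeness -/
theorem close_flat (h : Hooks H) (hN : Levels H N) {ε : ℝ} (hε : 0 < ε) :
    ∃ δ > 0, ∀ (n : ℕ) (x y : ℝ), 0 < y → y ≤ H n x → y / (2 * ((n : ℝ) + 1)) < δ →
      |P1 H N n x y - x| < ε ∧ |P2 H N n x y - (1 - y / 2)| < ε := by
  obtain ⟨J0, hJ0⟩ : ∃ J0 : ℕ, ∀ J ≥ J0, 3 * ((1 : ℝ) / 3) ^ J < ε := by
    have h1 : Filter.Tendsto (fun J : ℕ => 3 * ((1 : ℝ) / 3) ^ J) Filter.atTop (nhds (3 * 0)) :=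
      (tendsto_pow_atTop_nhds_zero_of_lt_one (by norm_num) (by norm_num)).const_mul 3
    rw [mul_zero] at h1
    exact Filter.eventually_atTop.1 (h1.eventually_lt_const hε)
  refine ⟨ε / (8 * 4 ^ J0 * ((J0 : ℝ) + 1)), by positivity, fun n x y hy hyH hc => ?_⟩
  have hHx : 0 < H n x := lt_of_lt_of_le hy hyH
  have hxK := h.mem n x hHx
  have hy1 : y ≤ 1 := hyH.trans (h.le_one n x)
  unfold P1 P2
  set J := JJ H N n x with hJ
  rcases le_or_gt J0 J with hJJ | hJJ
  · obtain ⟨c1, c2⟩ := G_close (N := N J) (j := J) hxK hy.le hy1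
    have e1 := hJ0 J hJJ
    have e2 : ((1 : ℝ) / 3) ^ N J ≤ (1 / 3) ^ J :=
      pow_le_pow_of_le_one (by norm_num) (by norm_num) hN.mono.le_apply
    have e3 : ((1 : ℝ) / 4) ^ J ≤ (1 / 3) ^ J :=
      pow_le_pow_left₀ (by norm_num) (by norm_num) J
    have e4 : (0 : ℝ) < (1 / 3) ^ J := by positivity
    constructor <;> linarith
  · obtain ⟨c1, c2⟩ := G_near (N := N J) (j := J) hxK hy.le hy1
    have hn : n ≤ J := le_JJ hHx
    have hn1 : (n : ℝ) + 1 ≤ J0 := by
      have : n + 1 ≤ J0 := by omega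
      exact_mod_cast this
    have hpow : (4 : ℝ) ^ (J + 1) ≤ 4 ^ J0 :=
      pow_le_pow_right₀ (by norm_num) (by omega)
    have h4 : (1 : ℝ) ≤ 4 ^ J0 := one_le_pow₀ (by norm_num)
    have hn2 : (0 : ℝ) < (n : ℝ) + 1 := by positivity
    rw [div_lt_iff₀ (by positivity)] at hc
    have hy2 : y < ε / (8 * 4 ^ J0 * ((J0 : ℝ) + 1)) * (2 * (J0 : ℝ)) := by
      refine hc.trans_le ?_
      apply mul_le_mul_of_nonneg_left (by linarith) (by positivity)
    have hy3 : 4 ^ J0 * y < ε / 4 := by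
      have e5 : ε / (8 * 4 ^ J0 * ((J0 : ℝ) + 1)) * (2 * (J0 : ℝ)) =
          (ε / 4) * ((J0 : ℝ) / ((J0 : ℝ) + 1)) / 4 ^ J0 := by
        field_simp
        ring
      rw [e5, lt_div_iff₀ (by positivity)] at hy2
      have e6 : (J0 : ℝ) / ((J0 : ℝ) + 1) ≤ 1 := by
        rw [div_le_one (by positivity)]; linarith
      have e7 : (ε / 4) * ((J0 : ℝ) / ((J0 : ℝ) + 1)) ≤ ε / 4 :=
        mul_le_of_le_one_right (by linarith) e6
      linarith
    have hy4 : (4 : ℝ) ^ (J + 1) * y ≤ 4 ^ J0 * y := mul_le_mul_of_nonneg_right hpow hy.le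
    have hy5 : y ≤ 4 ^ J0 * y := le_mul_of_one_le_left hy.le h4
    constructor
    · linarith
    · rw [abs_le] at c2
      rw [abs_lt]
      constructor <;> linarith [c2.1, c2.2]

/-- the curve with the basic interval fixed -/
noncomputable def Gfix (c : ℝ) (N j : ℕ) (q : ℝ × ℝ) : ℝ × ℝ :=
  (q.1 + ((c + (1 / 3) ^ N * (3 / 4 - q.1 / 4)) - q.1) * clamp ((q.2 - dl j) / dl j),
    1 + ((1 / 4) ^ j * (2 - q.1)) * clamp (q.2 / dl j) -
      (((1 / 4) ^ j * (2 - q.1)) + 1 / 2) * clamp ((q.2 - 2 * dl j) / (1 - 2 * dl j)))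

theorem continuous_Gfix (c : ℝ) (N j : ℕ) : Continuous (Gfix c N j) := by
  unfold Gfix
  have h1 : Continuous fun q : ℝ × ℝ => clamp ((q.2 - dl j) / dl j) :=
    continuous_clamp.comp ((continuous_snd.sub continuous_const).div_const _)
  have h2 : Continuous fun q : ℝ × ℝ => clamp (q.2 / dl j) :=
    continuous_clamp.comp (continuous_snd.div_const _)
  have h3 : Continuous fun q : ℝ × ℝ => clamp ((q.2 - 2 * dl j) / (1 - 2 * dl j)) :=
    continuous_clamp.comp ((continuous_snd.sub continuous_const).div_const _)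
  fun_prop

theorem G_eq_Gfix {N j : ℕ} {x y : ℝ} : (Gu N j x y, Gv j x y) = Gfix (cr N x) N j (x, y) := rfl

/-- the plane set -/
def CC (H : ℕ → ℝ → ℝ) : Set (ℝ × ℝ × ℝ) :=
  {p | p ∈ flatComb ∨ ∃ (n : ℕ) (x y : ℝ), 0 < y ∧ y ≤ H n x ∧
      p = (x, 1 - y / 2, y / (2 * ((n : ℝ) + 1)))}

theorem flat_zero {p : ℝ × ℝ × ℝ} (hp : p ∈ flatComb) : p.2.2 = 0 := by
  rcases hp with hp | hp
  · exact hp.2.2
  · exact hp.2.2

theorem continuousOn_E0 (h : Hooks H) (hN : Levels H N) : ContinuousOn (E0 H N) (CC H) := by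
  intro p0 hp0
  rcases hp0 with hp0 | ⟨n0, x0, y0, hy0, hyH0, rfl⟩
  · -- flat points
    rw [Metric.continuousWithinAt_iff]
    intro ε hε
    obtain ⟨δ, hδ, hclose⟩ := close_flat h hN (half_pos hε)
    have hz := flat_zero hp0
    refine ⟨min δ (ε / 2), lt_min hδ (half_pos hε), fun p hp hdist => ?_⟩
    rw [E0_flat hz]
    have hd1 : dist p.1 p0.1 < ε / 2 :=
      lt_of_le_of_lt (le_max_left _ _) (hdist.trans_le (min_le_right _ _))
    have hd2 : dist p.2 p0.2 < min δ (ε / 2) := lt_of_le_of_lt (le_max_right _ _) hdist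
    have hd3 : dist p.2.1 p0.2.1 < ε / 2 :=
      lt_of_le_of_lt (le_max_left _ _) (hd2.trans_le (min_le_right _ _))
    have hd4 : dist p.2.2 p0.2.2 < δ :=
      lt_of_le_of_lt (le_max_right _ _) (hd2.trans_le (min_le_left _ _))
    rcases hp with hp | ⟨n, x, y, hy, hyH, rfl⟩
    · rw [E0_flat (flat_zero hp)]
      refine max_lt ?_ ?_
      · exact lt_of_lt_of_le hd1 (by linarith)
      · exact lt_of_lt_of_le hd3 (by linarith)
    · rw [E0_hook hy]
      rw [hz, dist_zero_right] at hd4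
      have hpos : 0 < y / (2 * ((n : ℝ) + 1)) := by positivity
      have hd5 : y / (2 * ((n : ℝ) + 1)) < δ := by
        have : ‖y / (2 * ((n : ℝ) + 1))‖ < δ := hd4
        rwa [Real.norm_of_nonneg hpos.le] at this
      obtain ⟨c1, c2⟩ := hclose n x y hy hyH hd5
      refine max_lt ?_ ?_
      · calc dist (P1 H N n x y) p0.1 ≤ dist (P1 H N n x y) x + dist x p0.1 := dist_triangle _ _ _
          _ < ε / 2 + ε / 2 := add_lt_add (by rw [Real.dist_eq]; exact c1) hd1
          _ = ε := by ring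
      · calc dist (P2 H N n x y) p0.2.1 ≤
            dist (P2 H N n x y) (1 - y / 2) + dist (1 - y / 2) p0.2.1 := dist_triangle _ _ _
          _ < ε / 2 + ε / 2 := add_lt_add (by rw [Real.dist_eq]; exact c2) hd3
          _ = ε := by ring
  · -- hook points
    have hn0 : (0 : ℝ) < (n0 : ℝ) + 1 := by positivity
    obtain ⟨ε, hε, hloc⟩ := JJ_locally h hN (n := n0) (x0 := x0) (c := y0 / 2) (by linarith)
      (by linarith)
    set J := JJ H N n0 x0 with hJ
    have hcont : Continuous fun p : ℝ × ℝ × ℝ =>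
        Gfix (cr (N J) x0) (N J) J (p.1, 2 * (1 - p.2.1)) :=
      (continuous_Gfix _ _ _).comp (by fun_prop)
    refine ContinuousWithinAt.congr_of_eventuallyEq
      (f := fun p : ℝ × ℝ × ℝ => Gfix (cr (N J) x0) (N J) J (p.1, 2 * (1 - p.2.1)))
      hcont.continuousWithinAt ?_ ?_
    · -- eventual equality
      set p0 : ℝ × ℝ × ℝ := (x0, 1 - y0 / 2, y0 / (2 * ((n0 : ℝ) + 1))) with hp0
      have hz : 0 < y0 / (2 * ((n0 : ℝ) + 1)) := by positivity
      have ev1 : ∀ᶠ p in nhds p0, 0 < p.2.2 :=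
        (continuous_snd.comp continuous_snd).continuousAt.eventually_const_lt hz
      have ev2 : ∀ᶠ p in nhds p0, dist p.1 x0 < ε := by
        have : ContinuousAt (fun p : ℝ × ℝ × ℝ => dist p.1 x0) p0 := by fun_prop
        refine this.eventually_lt_const ?_
        show dist x0 x0 < ε
        rw [dist_self]; exact hε
      have ev3 : ∀ᶠ p in nhds p0, y0 / 2 < 2 * (1 - p.2.1) := by
        have : ContinuousAt (fun p : ℝ × ℝ × ℝ => 2 * (1 - p.2.1)) p0 := by fun_prop
        refine this.eventually_const_lt ?_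
        show y0 / 2 < 2 * (1 - (1 - y0 / 2))
        linarith
      have ev4 : ∀ᶠ p in nhds p0, |(1 - p.2.1) / p.2.2 - ((n0 : ℝ) + 1)| < 1 := by
        have : ContinuousAt (fun p : ℝ × ℝ × ℝ => |(1 - p.2.1) / p.2.2 - ((n0 : ℝ) + 1)|) p0 := by
          refine ContinuousAt.abs (ContinuousAt.sub (ContinuousAt.div (by fun_prop) (by fun_prop)
            hz.ne') continuousAt_const)
        refine this.eventually_lt_const ?_
        show |(1 - (1 - y0 / 2)) / (y0 / (2 * ((n0 : ℝ) + 1))) - ((n0 : ℝ) + 1)| < 1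
        rw [ratio_hook hy0, sub_self, abs_zero]; exact zero_lt_one
      have evall := (ev1.and (ev2.and (ev3.and ev4)))
      filter_upwards [mem_nhdsWithin_of_mem_nhds evall, self_mem_nhdsWithin] with p hp hpC
      obtain ⟨h1, h2, h3, h4⟩ := hp
      rcases hpC with hpC | ⟨n, x, y, hy, hyH, rfl⟩
      · rw [flat_zero hpC] at h1
        exact absurd h1 (lt_irrefl _)
      · simp only at h2 h3 h4
        rw [ratio_hook hy] at h4
        have hnn : n = n0 := by
          have h5 : (n : ℝ) - n0 < 1 := by linarith [(abs_lt.1 h4).2]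
          have h6 : -1 < (n : ℝ) - n0 := by linarith [(abs_lt.1 h4).1]
          have h7 : (n : ℝ) < n0 + 1 := by linarith
          have h8 : (n0 : ℝ) < n + 1 := by linarith
          have h9 : n < n0 + 1 := by exact_mod_cast h7
          have h10 : n0 < n + 1 := by exact_mod_cast h8
          omega
        subst hnn
        have h5 : 2 * (1 - (1 - y / 2)) = y := by ring
        rw [h5] at h3
        obtain ⟨l1, l2⟩ := hloc x (by rw [Real.dist_eq] at h2; exact h2) (by linarith)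
        rw [E0_hook hy]
        simp only [h5]
        unfold P1 P2
        rw [l1, ← l2 J le_rfl, ← G_eq_Gfix]
    · rw [E0_hook hy0]
      have h5 : 2 * (1 - (1 - y0 / 2)) = y0 := by ring
      simp only [h5]
      unfold P1 P2
      rw [← G_eq_Gfix]

/-! ### injectivity -/

theorem flat_cases {p : ℝ × ℝ × ℝ} (hp : p ∈ flatComb) :
    (p ∈ bottom ∧ p.2.1 = 0) ∨ (p.1 ∈ cantorSet ∧ 0 < p.2.1 ∧ p.2.1 ≤ 1 ∧ p.2.2 = 0) := by
  rcases hp with hp | hp
  · obtain ⟨h1, h2, h3⟩ := hp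
    rcases eq_or_lt_of_le h2.1 with h4 | h4
    · exact Or.inl ⟨⟨unit_of_cantor h1, h4.symm, h3⟩, h4.symm⟩
    · exact Or.inr ⟨h1, h4, h2.2, h3⟩
  · exact Or.inl ⟨hp, hp.2.1⟩

theorem P2_ge (h : Hooks H) {n : ℕ} {x y : ℝ} (hy : 0 < y) (hyH : y ≤ H n x) :
    1 / 2 ≤ P2 H N n x y := by
  have hHx : 0 < H n x := lt_of_lt_of_le hy hyH
  exact (G_shape (N := N (JJ H N n x)) (h.mem n x hHx) hy.le
    (hyH.trans (h.le_one n x))).2.2.1

theorem E0_snd (h : Hooks H) {p : ℝ × ℝ × ℝ} (hp : p ∈ CC H) :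
    0 ≤ (E0 H N p).2 ∧ ((E0 H N p).2 = 0 ↔ p ∈ bottom) := by
  rcases hp with hp | ⟨n, x, y, hy, hyH, rfl⟩
  · rw [E0_flat (flat_zero hp)]
    rcases flat_cases hp with ⟨h1, h2⟩ | ⟨h1, h2, h3, h4⟩
    · exact ⟨h2.ge, fun _ => h1, fun _ => h2⟩
    · refine ⟨h2.le, fun h5 => absurd h5 h2.ne', fun h5 => ?_⟩
      exact h5.2.1
  · rw [E0_hook hy]
    have h1 := P2_ge (N := N) h hy hyH
    simp only
    refine ⟨by linarith, fun h5 => by linarith, fun h5 => ?_⟩
    have h6 : y / (2 * ((n : ℝ) + 1)) = 0 := h5.2.2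
    have h7 : 0 < y / (2 * ((n : ℝ) + 1)) := by positivity
    exact absurd h6 h7.ne'

theorem flat_hook (h : Hooks H) {p : ℝ × ℝ × ℝ} {n : ℕ} {x y : ℝ} (hp : p ∈ flatComb)
    (hy : 0 < y) (hyH : y ≤ H n x) (hu : p.1 = P1 H N n x y) (hv : p.2.1 = P2 H N n x y) :
    False := by
  have hHx : 0 < H n x := lt_of_lt_of_le hy hyH
  have hxK := h.mem n x hHx
  obtain ⟨s1, s2, s3, s4, s5⟩ := G_shape (N := N (JJ H N n x)) (j := JJ H N n x) hxK hy.le
    (hyH.trans (h.le_one n x))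
  unfold P1 at hu
  unfold P2 at hv
  rcases flat_cases hp with ⟨-, h2⟩ | ⟨h1, h2, h3, h4⟩
  · linarith
  · rcases s5 with ⟨e1, -, e2⟩ | e | e
    · have := e2 hy; linarith
    · have := kap_pos (j := JJ H N n x) hxK; linarith
    · rw [hu, e] at h1
      exact XX_not_mem hxK h1

theorem E0_inj (h : Hooks H) (hN : Levels H N) {p q : ℝ × ℝ × ℝ} (hp : p ∈ CC H)
    (hq : q ∈ CC H) (he : E0 H N p = E0 H N q) : p = q := by
  rcases hp with hp | ⟨n, x, y, hy, hyH, rfl⟩
  · rcases hq with hq | ⟨n, x, y, hy, hyH, rfl⟩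
    · rw [E0_flat (flat_zero hp), E0_flat (flat_zero hq), Prod.mk.injEq] at he
      exact Prod.ext he.1 (Prod.ext he.2 ((flat_zero hp).trans (flat_zero hq).symm))
    · rw [E0_flat (flat_zero hp), E0_hook hy, Prod.mk.injEq] at he
      exact (flat_hook h hp hy hyH he.1 he.2).elim
  · rcases hq with hq | ⟨n', x', y', hy', hyH', rfl⟩
    · rw [E0_flat (flat_zero hq), E0_hook hy, Prod.mk.injEq] at he
      exact (flat_hook h hq hy hyH he.1.symm he.2.symm).elim
    · rw [E0_hook hy, E0_hook hy', Prod.mk.injEq] at he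
      have hHx : 0 < H n x := lt_of_lt_of_le hy hyH
      have hHx' : 0 < H n' x' := lt_of_lt_of_le hy' hyH'
      have hy1 := hyH.trans (h.le_one n x)
      have hy1' := hyH'.trans (h.le_one n' x')
      rcases lt_trichotomy x x' with hlt | rfl | hlt
      · exact (no_cross h hN hHx hHx' hlt hy.le hy1 hy'.le hy1' he.1 he.2).elim
      · have hnn : n = n' := h.disj n n' x hHx hHx'
        subst hnn
        have := G_inj (h.mem n x hHx) hy.le hy1 hy'.le hy1' he.1 he.2
        rw [this]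
      · exact (no_cross h hN hHx' hHx hlt hy'.le hy1' hy.le hy1 he.1.symm he.2.symm).elim

/-- the map which collapses the bottom -/
noncomputable def EE (H : ℕ → ℝ → ℝ) (N : ℕ → ℕ) (p : ℝ × ℝ × ℝ) : ℝ × ℝ :=
  ((E0 H N p).1 * (E0 H N p).2, (E0 H N p).2)

theorem continuousOn_EE (h : Hooks H) (hN : Levels H N) : ContinuousOn (EE H N) (CC H) := by
  have h1 := continuousOn_E0 h hN
  have h2 : Continuous fun q : ℝ × ℝ => (q.1 * q.2, q.2) := by fun_prop
  exact h2.comp_continuousOn h1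

theorem EE_eq_iff (h : Hooks H) (hN : Levels H N) {p q : ℝ × ℝ × ℝ} (hp : p ∈ CC H)
    (hq : q ∈ CC H) : EE H N p = EE H N q ↔ p = q ∨ (p ∈ bottom ∧ q ∈ bottom) := by
  obtain ⟨p1, p2⟩ := E0_snd (N := N) h hp
  obtain ⟨q1, q2⟩ := E0_snd (N := N) h hq
  constructor
  · intro he
    unfold EE at he
    rw [Prod.mk.injEq] at he
    obtain ⟨e1, e2⟩ := he
    rcases eq_or_lt_of_le p1 with h0 | h0
    · right
      exact ⟨p2.1 h0.symm, q2.1 (by rw [← e2]; exact h0.symm)⟩
    · left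
      apply E0_inj h hN hp hq
      rw [← e2] at e1
      exact Prod.ext (mul_right_cancel₀ h0.ne' e1) e2
  · rintro (rfl | ⟨h1, h2⟩)
    · rfl
    · unfold EE
      rw [p2.2 h1, q2.2 h2]
      simp

end Map

end Pool.Agent.Lib45
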