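import Pool.Agent.Lib_helper45.FanCurve

/-!
Placement of the hooks.
-/

namespace Pool.Agent.Lib45

/-- hook length functions -/
structure Hooks (H : ℕ → ℝ → ℝ) : Prop where
  le_one : ∀ n x, H n x ≤ 1
  mem : ∀ n x, 0 < H n x → x ∈ cantorSet
  closed : ∀ n c, 0 < c → IsClosed {x | c ≤ H n x}
  disj : ∀ n m x, 0 < H n x → 0 < H m x → n = m

/-- levels -/
structure Levels (H : ℕ → ℝ → ℝ) (N : ℕ → ℕ) : Prop where
  mono : StrictMono N
  sep : ∀ (j n m : ℕ) (x x' : ℝ), n ≤ j → m ≤ j → 1 / ((j : ℝ) + 1) ≤ H n x → 1 / ((j : ℝ) + 1) ≤ H m x' →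
    cr (N j) x = cr (N j) x' → n = m

theorem Hooks.exists_levels {H : ℕ → ℝ → ℝ} (h : Hooks H) : ∃ N, Levels H N := by
  have key : ∀ j : ℕ, ∀ᶠ k in Filter.atTop, ∀ n ∈ Finset.range (j + 1),
      ∀ m ∈ Finset.range (j + 1), ∀ x x', 1 / ((j : ℝ) + 1) ≤ H n x →
        1 / ((j : ℝ) + 1) ≤ H m x' → cr k x = cr k x' → n = m := by
    intro j
    rw [Filter.eventually_all_finset]
    intro n _
    rw [Filter.eventually_all_finset]
    intro m _
    by_cases hnm : n = m
    · exact Filter.Eventually.of_forall fun k x x' _ _ _ => hnm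
    have hc : (0 : ℝ) < 1 / ((j : ℝ) + 1) := by positivity
    have hA : IsCompact {x | 1 / ((j : ℝ) + 1) ≤ H n x} :=
      isCompact_cantorSet.of_isClosed_subset (h.closed n _ hc)
        (fun x hx => h.mem n x (lt_of_lt_of_le hc hx))
    have hdis : Disjoint {x | 1 / ((j : ℝ) + 1) ≤ H n x} {x | 1 / ((j : ℝ) + 1) ≤ H m x} := by
      rw [Set.disjoint_left]
      intro x hx hx'
      exact hnm (h.disj n m x (lt_of_lt_of_le hc hx) (lt_of_lt_of_le hc hx'))
    obtain ⟨δ, hδ, hth⟩ := hdis.exists_thickenings hA (h.closed m _ hc)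
    have hev : ∀ᶠ k : ℕ in Filter.atTop, ((1 : ℝ) / 3) ^ k < δ :=
      (tendsto_pow_atTop_nhds_zero_of_lt_one (by norm_num) (by norm_num)).eventually_lt_const hδ
    filter_upwards [hev] with k hk x x' hx hx' hcr
    exfalso
    have hxK := h.mem n x (lt_of_lt_of_le hc hx)
    have hxK' := h.mem m x' (lt_of_lt_of_le hc hx')
    have h1 := cr_ge k hxK
    have h2 := cr_le k hxK
    have h3 := cr_ge k hxK'
    have h4 := cr_le k hxK'
    have hdist : dist x' x < δ := by
      rw [Real.dist_eq, abs_lt]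
      constructor <;> linarith
    have m1 : x' ∈ Metric.thickening δ {x | 1 / ((j : ℝ) + 1) ≤ H n x} :=
      Metric.mem_thickening_iff.2 ⟨x, hx, hdist⟩
    have m2 : x' ∈ Metric.thickening δ {x | 1 / ((j : ℝ) + 1) ≤ H m x} :=
      Metric.mem_thickening_iff.2 ⟨x', hx', by rw [dist_self]; exact hδ⟩
    exact Set.disjoint_left.1 hth m1 m2
  obtain ⟨N, hN, hN'⟩ := Filter.extraction_forall_of_eventually key
  refine ⟨N, hN, fun j n m x x' hn hm h1 h2 h3 => ?_⟩
  exact hN' j n (Finset.mem_range.2 (by omega)) m (Finset.mem_range.2 (by omega)) x x' h1 h2 h3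

section

variable {H : ℕ → ℝ → ℝ} {N : ℕ → ℕ}

/-- the basic interval of `x` at stage `j` has type `n` -/
def TT (H : ℕ → ℝ → ℝ) (N : ℕ → ℕ) (j n : ℕ) (x : ℝ) : Prop :=
  n ≤ j ∧ ∃ x', 1 / ((j : ℝ) + 1) ≤ H n x' ∧ cr (N j) x' = cr (N j) x

theorem TT_congr {j n : ℕ} {x x' : ℝ} (h : cr (N j) x = cr (N j) x') :
    TT H N j n x ↔ TT H N j n x' := by
  unfold TT; rw [h]

theorem TT_unique (hN : Levels H N) {j n m : ℕ} {x : ℝ} (h1 : TT H N j n x)
    (h2 : TT H N j m x) : n = m := by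
  obtain ⟨hn, x1, hx1, e1⟩ := h1
  obtain ⟨hm, x2, hx2, e2⟩ := h2
  exact hN.sep j n m x1 x2 hn hm hx1 hx2 (e1.trans e2.symm)

/-- the stage of the pocket in which the hook `(n, x)` is placed -/
noncomputable def JJ (H : ℕ → ℝ → ℝ) (N : ℕ → ℕ) (n : ℕ) (x : ℝ) : ℕ :=
  sInf {j | ∀ i ≥ j, TT H N i n x}

theorem TT_of_large {n : ℕ} {x c : ℝ} (hx : c ≤ H n x) {j : ℕ}
    (hj : 1 / ((j : ℝ) + 1) ≤ c) (hnj : n ≤ j) : TT H N j n x :=
  ⟨hnj, x, hj.trans hx, rfl⟩

theorem exists_stage {c : ℝ} (hc : 0 < c) (n : ℕ) :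
    ∃ k : ℕ, n ≤ k ∧ ∀ i ≥ k, 1 / ((i : ℝ) + 1) ≤ c := by
  obtain ⟨k, hk⟩ := exists_nat_one_div_lt hc
  refine ⟨max n k, le_max_left _ _, fun i hi => ?_⟩
  have h1 : (k : ℝ) ≤ i := by exact_mod_cast (le_max_right n k).trans hi
  calc 1 / ((i : ℝ) + 1) ≤ 1 / ((k : ℝ) + 1) :=
        one_div_le_one_div_of_le (by positivity) (by linarith)
    _ ≤ c := hk.le

theorem JJ_set_nonempty {n : ℕ} {x : ℝ} (hx : 0 < H n x) :
    {j | ∀ i ≥ j, TT H N i n x}.Nonempty := by
  obtain ⟨k, hk, hk'⟩ := exists_stage hx n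
  exact ⟨k, fun i hi => TT_of_large le_rfl (hk' i hi) (hk.trans hi)⟩

theorem JJ_spec {n : ℕ} {x : ℝ} (hx : 0 < H n x) : ∀ i ≥ JJ H N n x, TT H N i n x :=
  Nat.sInf_mem (JJ_set_nonempty hx)

theorem JJ_le {n j : ℕ} {x : ℝ} (h : ∀ i ≥ j, TT H N i n x) : JJ H N n x ≤ j :=
  Nat.sInf_le h

theorem le_JJ {n : ℕ} {x : ℝ} (hx : 0 < H n x) : n ≤ JJ H N n x :=
  (JJ_spec hx _ le_rfl).1

theorem JJ_locally (h : Hooks H) (hN : Levels H N) {n : ℕ} {x0 c : ℝ} (hc : 0 < c)
    (hx0 : c ≤ H n x0) : ∃ ε > 0, ∀ x, |x - x0| < ε → c ≤ H n x →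
      JJ H N n x = JJ H N n x0 ∧ ∀ i, i ≤ JJ H N n x0 → cr (N i) x = cr (N i) x0 := by
  obtain ⟨k, hk, hk'⟩ := exists_stage hc n
  set M := max k (JJ H N n x0) with hM
  refine ⟨(1 / 3) ^ (N M), by positivity, fun x hx hxc => ?_⟩
  have hxK := h.mem n x (lt_of_lt_of_le hc hxc)
  have hxK0 := h.mem n x0 (lt_of_lt_of_le hc hx0)
  have hM' : cr (N M) x = cr (N M) x0 := cr_close _ hxK hxK0 hx
  have hsame : ∀ i, i ≤ M → cr (N i) x = cr (N i) x0 := fun i hi =>
    cr_same_coarser (hN.mono.monotone hi) hxK hxK0 hM'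
  refine ⟨?_, fun i hi => hsame i (hi.trans (le_max_right _ _))⟩
  unfold JJ
  congr 1
  ext j
  have : ∀ i, TT H N i n x ↔ TT H N i n x0 := by
    intro i
    by_cases hi : i ≤ M
    · exact TT_congr (hsame i hi)
    · push Not at hi
      have hik : k ≤ i := (le_max_left _ _).trans hi.le
      exact ⟨fun _ => TT_of_large hx0 (hk' i hik) (hk.trans hik),
        fun _ => TT_of_large hxc (hk' i hik) (hk.trans hik)⟩
  simp only [Set.mem_ofPred_eq, this]

/-- the position of a hook point in the plane -/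
noncomputable def P1 (H : ℕ → ℝ → ℝ) (N : ℕ → ℕ) (n : ℕ) (x y : ℝ) : ℝ :=
  Gu (N (JJ H N n x)) (JJ H N n x) x y

/-- the position of a hook point in the plane -/
noncomputable def P2 (H : ℕ → ℝ → ℝ) (N : ℕ → ℕ) (n : ℕ) (x y : ℝ) : ℝ :=
  Gv (JJ H N n x) x y

theorem no_cross (h : Hooks H) (hN : Levels H N) {n n' : ℕ} {x x' y y' : ℝ}
    (hx : 0 < H n x) (hx' : 0 < H n' x') (hlt : x < x') (hy0 : 0 ≤ y) (hy1 : y ≤ 1)
    (hy0' : 0 ≤ y') (hy1' : y' ≤ 1) (hu : P1 H N n x y = P1 H N n' x' y')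
    (hv : P2 H N n x y = P2 H N n' x' y') : False := by
  unfold P1 at hu
  unfold P2 at hv
  have hxK := h.mem n x hx
  have hxK' := h.mem n' x' hx'
  set j := JJ H N n x with hj
  set j' := JJ H N n' x' with hj'
  obtain ⟨s1, s2, s3, s4, s5⟩ := G_shape (N := N j) (j := j) hxK hy0 hy1
  obtain ⟨t1, t2, t3, t4, -⟩ := G_shape (N := N j') (j := j') hxK' hy0' hy1'
  rcases lt_or_ge (cr (N j) x) x' with hc | hc
  · have h1 := cr_gap (N j) hxK hxK' hc
    have h2 := XX_lt (N := N j) hxK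
    linarith
  · have hcr : cr (N j) x' = cr (N j) x := cr_same (N j) hxK hxK' hlt.le hc
    rcases lt_or_ge j' j with hjj | hjj
    · -- impossible by the choice of the stage
      have T1 : TT H N j n x := JJ_spec hx j le_rfl
      have T2 : TT H N j n' x' := JJ_spec hx' j hjj.le
      have T3 : TT H N j n x' := (TT_congr hcr).2 T1
      have hnn : n = n' := TT_unique hN T3 T2
      subst hnn
      have : j ≤ j' := by
        apply JJ_le
        intro i hi
        rcases lt_or_ge i j with hij | hij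
        · have e : cr (N i) x' = cr (N i) x :=
            cr_same_coarser (hN.mono.monotone hij.le) hxK' hxK hcr
          exact (TT_congr e).1 (JJ_spec hx' i hi)
        · exact JJ_spec hx i hij
      omega
    · have hlast : XX (N j') x' < XX (N j) x ∧ kap j' x' < kap j x := by
        rcases eq_or_lt_of_le hjj with hjj | hjj
        · rw [← hjj]
          unfold XX kap
          rw [hcr]
          have p1 : (0 : ℝ) < (1 / 3) ^ N j := by positivity
          have p2 : (0 : ℝ) < (1 / 4) ^ j := by positivity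
          constructor <;> nlinarith
        · constructor
          · have hNlt : N j + 1 ≤ N j' := hN.mono hjj
            have q1 := cr_anti hNlt hxK'
            have q1' := cr_anti (Nat.le_succ (N j)) hxK'
            have q2 := XX_ge (N := N j) hxK
            have p1 : (0 : ℝ) < (1 / 3) ^ N j := by positivity
            have p2 : ((1 : ℝ) / 3) ^ N j' ≤ (1 / 3) ^ (N j + 1) :=
              pow_le_pow_of_le_one (by norm_num) (by norm_num) hNlt
            rw [pow_succ] at p2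
            have q4 : cr (N j') x' ≤ cr (N j) x := by rw [← hcr]; exact q1.trans q1'
            rcases eq_or_lt_of_le q4 with q5 | q5
            · have q3 := XX_le (N := N j') hxK'
              rw [q5] at q3
              linarith
            · have q6 := cr_gap (N j') hxK' (cr_mem (N j) hxK) q5
              have q7 := XX_lt (N := N j') hxK'
              linarith
          · have q1 := kap_le (j := j') hxK'
            have q2 := kap_ge (j := j) hxK
            have p1 : (0 : ℝ) < (1 / 4) ^ j := by positivity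
            have p2 : ((1 : ℝ) / 4) ^ j' ≤ (1 / 4) ^ (j + 1) :=
              pow_le_pow_of_le_one (by norm_num) (by norm_num) hjj
            rw [pow_succ] at p2
            linarith
      obtain ⟨l1, l2⟩ := hlast
      rcases s5 with ⟨e, -⟩ | e | e
      · linarith
      · linarith
      · linarith

end

end Pool.Agent.Lib45
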