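import Mathlib

/-!
The combinatorial (computability free) part of the construction of a maximal c.e. ideal of a
prescribed c.e. degree.
-/

namespace Pool.Agent.Lib45

section States

variable {Q : Type*}

open Classical in
/-- the `k`-state of the element `p` at stage `t`, as a binary number, most significant bit
belonging to index `0`. -/
noncomputable def st (D : ℕ → ℕ → Q → Prop) (k t : ℕ) (p : Q) : ℕ :=
  Nat.rec (motive := fun _ => ℕ) 0 (fun i IH => 2 * IH + if D i t p then 1 else 0) k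

variable {D : ℕ → ℕ → Q → Prop}

theorem st_zero (t : ℕ) (p : Q) : st D 0 t p = 0 := rfl

open Classical in
theorem st_succ (k t : ℕ) (p : Q) :
    st D (k + 1) t p = 2 * st D k t p + if D k t p then 1 else 0 := rfl

theorem st_lt_pow (k t : ℕ) (p : Q) : st D k t p < 2 ^ k := by
  induction k with
  | zero => simp [st_zero]
  | succ k ih =>
    rw [st_succ, pow_succ]
    split_ifs <;> omega

theorem st_mono {k t t' : ℕ} {p p' : Q} (h : ∀ i < k, D i t p → D i t' p') :
    st D k t p ≤ st D k t' p' := by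
  induction k with
  | zero => simp [st_zero]
  | succ k ih =>
    have := ih fun i hi => h i (by omega)
    rw [st_succ, st_succ]
    have hk := h k (by omega)
    by_cases h1 : D k t p
    · rw [if_pos h1, if_pos (hk h1)]; omega
    · rw [if_neg h1]
      split_ifs <;> omega

theorem st_lt {e t t' : ℕ} {p p' : Q} (h : ∀ i < e, D i t p → D i t' p')
    (h1 : ¬ D e t p) (h2 : D e t' p') : st D (e + 1) t p < st D (e + 1) t' p' := by
  have := st_mono h
  rw [st_succ, st_succ, if_neg h1, if_pos h2]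
  omega

theorem st_prefix {k k' t t' : ℕ} {p p' : Q} (hk : k ≤ k')
    (h : st D k' t p ≤ st D k' t' p') : st D k t p ≤ st D k t' p' := by
  induction k', hk using Nat.le_induction with
  | base => exact h
  | succ n hn ih =>
    apply ih
    rw [st_succ, st_succ] at h
    split_ifs at h <;> omega

end States

variable {Q : Type*} [BooleanAlgebra Q]

/-- The data of the stage by stage construction. -/
structure Cons (m : ℕ → ℕ) (D : ℕ → ℕ → Q → Prop) (dec : ℕ → Q → Q)
    (b : ℕ → ℕ × Q) (z : ℕ → Q) (L : ℕ → List (ℕ × Q)) : Prop where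
  nontriv : (⊤ : Q) ≠ ⊥
  D_mono : ∀ {e t t' : ℕ} {p p' : Q}, t ≤ t' → p' ≤ p → D e t p → D e t' p'
  dec_le : ∀ t p, dec t p ≤ p
  dec_ne_bot : ∀ t p, p ≠ ⊥ → dec t p ≠ ⊥
  dec_decides : ∀ q : Q, ∃ n, ∀ p, dec n p ≤ q ∨ Disjoint (dec n p) q
  zero : L 0 = [(0, ⊤)]
  b_mem : ∀ t, b t ∈ L t
  b_le : ∀ t, (b t).1 ≤ m t
  z_ne_bot : ∀ t, (b t).2 ≠ ⊥ → z t ≠ ⊥
  z_lt : ∀ t, (b t).2 ≠ ⊥ → z t < (b t).2
  b_max : ∀ t, ∀ x ∈ L t, x.1 ≤ m t → st D t t x.2 ≤ st D t t (b t).2
  step : ∀ t, L (t + 1) =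
    ((L t).filter (fun x => decide (x.1 ≤ m t))).map (fun x => (x.1, dec t (x.2 \ z t)))
      ++ [(m t, dec t (z t))]
  m_unbounded : ∀ n, ∃ k, ∀ t ≥ k, n < m t

namespace Cons

variable {m : ℕ → ℕ} {D : ℕ → ℕ → Q → Prop} {dec : ℕ → Q → Q}
    {b : ℕ → ℕ × Q} {z : ℕ → Q} {L : ℕ → List (ℕ × Q)}

/-- a true stage -/
def True_ (m : ℕ → ℕ) (t : ℕ) : Prop := ∀ s, t ≤ s → m t ≤ m s

theorem exists_true (m : ℕ → ℕ) (k : ℕ) : ∃ t ≥ k, True_ m t := by
  have hne : ∃ n, ∃ t ≥ k, m t = n := ⟨_, k, le_rfl, rfl⟩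
  classical
  obtain ⟨t, htk, ht⟩ := Nat.find_spec hne
  refine ⟨t, htk, fun s hs => ?_⟩
  rw [ht]
  exact Nat.find_min' hne ⟨s, le_trans htk hs, rfl⟩

theorem mem_succ (h : Cons m D dec b z L) {t : ℕ} {y : ℕ × Q} :
    y ∈ L (t + 1) ↔ (∃ x ∈ L t, x.1 ≤ m t ∧ y = (x.1, dec t (x.2 \ z t))) ∨
      y = (m t, dec t (z t)) := by
  rw [h.step t]
  simp only [List.mem_append, List.mem_map, List.mem_filter, decide_eq_true_eq,
    List.mem_singleton]
  constructor
  · rintro (⟨x, ⟨hx, hm⟩, rfl⟩ | h)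
    · exact Or.inl ⟨x, hx, hm, rfl⟩
    · exact Or.inr h
  · rintro (⟨x, hx, hm, rfl⟩ | h)
    · exact Or.inl ⟨x, ⟨hx, hm⟩, rfl⟩
    · exact Or.inr h

theorem pairwise_forall {l : List (ℕ × Q)} (hl : l.Pairwise (fun x y => Disjoint x.2 y.2))
    {x y : ℕ × Q} (hx : x ∈ l) (hy : y ∈ l) (hxy : x ≠ y) : Disjoint x.2 y.2 := by
  have : Std.Symm (fun x y : ℕ × Q => Disjoint x.2 y.2) := ⟨fun _ _ h => h.symm⟩
  exact hl.forall hx hy hxy

theorem inv (h : Cons m D dec b z L) (t : ℕ) :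
    (∀ x ∈ L t, x.2 ≠ ⊥) ∧ (L t).Pairwise (fun x y => Disjoint x.2 y.2) := by
  induction t with
  | zero =>
    rw [h.zero]
    constructor
    · intro x hx
      rw [List.mem_singleton] at hx
      subst hx
      exact h.nontriv
    · exact List.pairwise_singleton _ _
  | succ t ih =>
    obtain ⟨ih1, ih2⟩ := ih
    have hb : (b t).2 ≠ ⊥ := ih1 _ (h.b_mem t)
    have hz := h.z_ne_bot t hb
    have hzb := h.z_lt t hb
    constructor
    · intro y hy
      rcases h.mem_succ.1 hy with ⟨x, hx, hxm, rfl⟩ | rfl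
      · apply h.dec_ne_bot
        by_cases hxb : x = b t
        · subst hxb
          intro h0
          rw [sdiff_eq_bot_iff] at h0
          exact absurd (lt_of_lt_of_le hzb h0) (lt_irrefl _)
        · have hdis : Disjoint x.2 (b t).2 :=
            pairwise_forall ih2 hx (h.b_mem t) hxb
          have : Disjoint x.2 (z t) := hdis.mono_right hzb.le
          rw [this.sdiff_eq_left]
          exact ih1 x hx
      · exact h.dec_ne_bot _ _ hz
    · rw [h.step t, List.pairwise_append]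
      refine ⟨?_, List.pairwise_singleton _ _, ?_⟩
      · rw [List.pairwise_map]
        refine (ih2.filter _).imp ?_
        intro x y hxy
        exact (hxy.mono_left ((h.dec_le _ _).trans sdiff_le)).mono_right
          ((h.dec_le _ _).trans sdiff_le)
      · intro y hy y' hy'
        rw [List.mem_singleton] at hy'
        subst hy'
        rw [List.mem_map] at hy
        obtain ⟨x, -, rfl⟩ := hy
        exact (disjoint_sdiff_self_left.mono_left (h.dec_le _ _)).mono_right (h.dec_le _ _)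

theorem ne_bot (h : Cons m D dec b z L) {t : ℕ} {x : ℕ × Q} (hx : x ∈ L t) : x.2 ≠ ⊥ :=
  (h.inv t).1 x hx

theorem disj (h : Cons m D dec b z L) {t : ℕ} {x y : ℕ × Q} (hx : x ∈ L t) (hy : y ∈ L t)
    (hxy : x ≠ y) : Disjoint x.2 y.2 :=
  pairwise_forall (h.inv t).2 hx hy hxy

theorem z_lt' (h : Cons m D dec b z L) (t : ℕ) : z t < (b t).2 :=
  h.z_lt t (h.ne_bot (h.b_mem t))

/-- ancestors -/
theorem anc (h : Cons m D dec b z L) {t t' : ℕ} (htt' : t ≤ t') {y : ℕ × Q} (hy : y ∈ L t') :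
    ∃ x ∈ L t, y.2 ≤ x.2 ∧ x.1 ≤ y.1 ∧ ∀ s, t ≤ s → s < t' → x.1 ≤ m s := by
  induction t', htt' using Nat.le_induction generalizing y with
  | base => exact ⟨y, hy, le_rfl, le_rfl, fun s h1 h2 => by omega⟩
  | succ n hn ih =>
    rcases h.mem_succ.1 hy with ⟨x, hx, hxm, rfl⟩ | rfl
    · obtain ⟨x', hx', h1, h2, h3⟩ := ih hx
      refine ⟨x', hx', ((h.dec_le _ _).trans sdiff_le).trans h1, h2, fun s hs hs' => ?_⟩
      rcases Nat.lt_succ_iff_lt_or_eq.1 hs' with hs' | rfl
      · exact h3 s hs hs'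
      · exact h2.trans hxm
    · obtain ⟨x', hx', h1, h2, h3⟩ := ih (h.b_mem n)
      refine ⟨x', hx', ((h.dec_le _ _).trans (h.z_lt' n).le).trans h1, h2.trans (h.b_le n),
        fun s hs hs' => ?_⟩
      rcases Nat.lt_succ_iff_lt_or_eq.1 hs' with hs' | rfl
      · exact h3 s hs hs'
      · exact h2.trans (h.b_le _)

/-- permanent pieces -/
def Perm (m : ℕ → ℕ) (L : ℕ → List (ℕ × Q)) (t : ℕ) (x : ℕ × Q) : Prop :=
  x ∈ L t ∧ ∀ s, t ≤ s → x.1 ≤ m s

theorem perm_zero (h : Cons m D dec b z L) : Perm m L 0 (0, ⊤) := by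
  refine ⟨?_, fun s _ => Nat.zero_le _⟩
  rw [h.zero]; exact List.mem_singleton.2 rfl

theorem perm_succ (h : Cons m D dec b z L) {t : ℕ} {x : ℕ × Q} (hx : Perm m L t x) :
    Perm m L (t + 1) (x.1, dec t (x.2 \ z t)) := by
  refine ⟨?_, fun s hs => hx.2 s (by omega)⟩
  rw [h.mem_succ]
  exact Or.inl ⟨x, hx.1, hx.2 t le_rfl, rfl⟩

theorem perm_desc (h : Cons m D dec b z L) {t t' : ℕ} (htt' : t ≤ t') {x : ℕ × Q}
    (hx : Perm m L t x) : ∃ x', Perm m L t' x' ∧ x'.1 = x.1 ∧ x'.2 ≤ x.2 := by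
  induction t', htt' using Nat.le_induction with
  | base => exact ⟨x, hx, rfl, le_rfl⟩
  | succ n hn ih =>
    obtain ⟨x', hx', h1, h2⟩ := ih
    exact ⟨_, h.perm_succ hx', h1, ((h.dec_le _ _).trans sdiff_le).trans h2⟩

theorem anc_perm (h : Cons m D dec b z L) {t t' : ℕ} (htt' : t ≤ t') {y : ℕ × Q}
    (hy : Perm m L t' y) : ∃ x, Perm m L t x ∧ y.2 ≤ x.2 := by
  obtain ⟨x, hx, h1, h2, h3⟩ := h.anc htt' hy.1
  refine ⟨x, ⟨hx, fun s hs => ?_⟩, h1⟩
  by_cases hs' : s < t'
  · exact h3 s hs hs'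
  · exact h2.trans (hy.2 s (by omega))

theorem new_perm (h : Cons m D dec b z L) {t : ℕ} (ht : True_ m t) :
    Perm m L (t + 1) (m t, dec t (z t)) := by
  refine ⟨h.mem_succ.2 (Or.inr rfl), fun s hs => ht s (by omega)⟩

theorem all_perm (h : Cons m D dec b z L) {t : ℕ} (ht : True_ m t) {x : ℕ × Q}
    (hx : x ∈ L (t + 1)) : Perm m L (t + 1) x := by
  refine ⟨hx, fun s hs => ?_⟩
  rcases h.mem_succ.1 hx with ⟨x', hx', hxm, rfl⟩ | rfl
  · exact hxm.trans (ht s (by omega))
  · exact ht s (by omega)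

theorem b_perm (h : Cons m D dec b z L) {t : ℕ} (ht : True_ m t) : Perm m L t (b t) :=
  ⟨h.b_mem t, fun s hs => (h.b_le t).trans (ht s hs)⟩

/-- membership in the ideal -/
def Mem (L : ℕ → List (ℕ × Q)) (a : Q) : Prop := ∃ t, ∀ x ∈ L t, Disjoint a x.2

theorem mem_later (h : Cons m D dec b z L) {t t' : ℕ} (htt' : t ≤ t') {a : Q}
    (ha : ∀ x ∈ L t, Disjoint a x.2) : ∀ x ∈ L t', Disjoint a x.2 := by
  intro y hy
  obtain ⟨x, hx, h1, -⟩ := h.anc htt' hy
  exact (ha x hx).mono_right h1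

/-- the ideal -/
def ideal (h : Cons m D dec b z L) : Order.Ideal Q where
  carrier := {a | Mem L a}
  lower' := by
    rintro a c hca ⟨t, ht⟩
    exact ⟨t, fun x hx => (ht x hx).mono_left hca⟩
  nonempty' := ⟨⊥, 0, fun x _ => disjoint_bot_left⟩
  directed' := by
    rintro a ⟨t, ht⟩ c ⟨t', ht'⟩
    refine ⟨a ⊔ c, ⟨max t t', fun x hx => ?_⟩, le_sup_left, le_sup_right⟩
    rw [disjoint_sup_left]
    exact ⟨h.mem_later (le_max_left _ _) ht x hx, h.mem_later (le_max_right _ _) ht' x hx⟩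

theorem mem_ideal (h : Cons m D dec b z L) {a : Q} : a ∈ h.ideal ↔ Mem L a := Iff.rfl

theorem perm_not_mem (h : Cons m D dec b z L) {t : ℕ} {x : ℕ × Q} (hx : Perm m L t x) :
    x.2 ∉ h.ideal := by
  rw [h.mem_ideal]
  rintro ⟨t', ht'⟩
  have h1 := h.mem_later (le_max_right t t') ht'
  obtain ⟨x', hx', -, h2⟩ := h.perm_desc (le_max_left t t') hx
  have h3 := h1 x' hx'.1
  have h4 : x'.2 ≤ ⊥ := h3 h2 le_rfl
  exact h.ne_bot hx'.1 (le_bot_iff.1 h4)

theorem mem_of_disj_perm (h : Cons m D dec b z L) {t : ℕ} {a : Q}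
    (ha : ∀ x, Perm m L t x → Disjoint a x.2) : a ∈ h.ideal := by
  obtain ⟨s, hs, hT⟩ := exists_true m t
  refine ⟨s + 1, fun y hy => ?_⟩
  obtain ⟨x, hx, hyx⟩ := h.anc_perm (show t ≤ s + 1 by omega) (h.all_perm hT hy)
  exact (ha x hx).mono_right hyx

theorem decided_of (h : Cons m D dec b z L) {q : Q} {n : ℕ}
    (hn : ∀ p, dec n p ≤ q ∨ Disjoint (dec n p) q) {t : ℕ} (ht : n + 1 ≤ t) :
    ∀ x ∈ L t, x.2 ≤ q ∨ Disjoint x.2 q := by
  intro x hx
  obtain ⟨y, hy, hxy, -⟩ := h.anc ht hx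
  rcases h.mem_succ.1 hy with ⟨x', -, -, rfl⟩ | rfl
  · exact (hn (x'.2 \ z n)).imp (fun h1 => hxy.trans h1) (fun h1 => h1.mono_left hxy)
  · exact (hn (z n)).imp (fun h1 => hxy.trans h1) (fun h1 => h1.mono_left hxy)

theorem decided (h : Cons m D dec b z L) (q : Q) :
    ∃ n, ∀ t, n ≤ t → ∀ x ∈ L t, x.2 ≤ q ∨ Disjoint x.2 q := by
  obtain ⟨n, hn⟩ := h.dec_decides q
  exact ⟨n + 1, fun t ht => h.decided_of hn ht⟩

theorem exists_perm_le (h : Cons m D dec b z L) {a : Q} (ha : a ∉ h.ideal) :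
    ∃ n, ∀ t, n ≤ t → ∃ x, Perm m L t x ∧ x.2 ≤ a := by
  obtain ⟨n, hn⟩ := h.decided a
  refine ⟨n, fun t ht => ?_⟩
  by_contra hcon
  push Not at hcon
  apply ha
  refine h.mem_of_disj_perm (t := t) fun x hx => ?_
  rcases hn t ht x hx.1 with h1 | h1
  · exact absurd h1 (hcon x hx)
  · exact h1.symm

/-- a piece which is dropped later belongs to the ideal -/
theorem dropped_mem (h : Cons m D dec b z L) {t s : ℕ} {x : ℕ × Q} (hx : x ∈ L t)
    (hs : t ≤ s) (hms : m s < x.1) : x.2 ∈ h.ideal := by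
  refine ⟨s + 1, fun y hy => ?_⟩
  obtain ⟨x', hx', h1, h2, h3⟩ := h.anc (show t ≤ s + 1 by omega) hy
  by_cases hxx : x = x'
  · subst hxx
    have := h3 s hs (by omega)
    omega
  · exact (h.disj hx hx' hxx).mono_right h1

theorem new_mem_iff (h : Cons m D dec b z L) {t : ℕ} :
    dec t (z t) ∉ h.ideal ↔ True_ m t := by
  constructor
  · intro hn s hs
    by_contra hlt
    push Not at hlt
    have hne : t ≠ s := by rintro rfl; omega
    exact hn (h.dropped_mem (t := t + 1) (s := s) (x := (m t, dec t (z t)))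
      (h.mem_succ.2 (Or.inr rfl)) (by omega) hlt)
  · intro ht
    exact h.perm_not_mem (h.new_perm ht)

theorem sup_mem_ideal {I : Order.Ideal Q} {a c : Q} (ha : a ∈ I) (hc : c ∈ I) : a ⊔ c ∈ I :=
  Order.Ideal.sup_mem ha hc

theorem step_diff_mem (h : Cons m D dec b z L) {s : ℕ} {x : ℕ × Q} (hx : Perm m L s x)
    (hne : ¬ (True_ m s ∧ x = b s)) : x.2 \ dec s (x.2 \ z s) ∈ h.ideal := by
  refine h.mem_of_disj_perm (t := s + 1) fun y hy => ?_
  rcases h.mem_succ.1 hy.1 with ⟨x1, hx1, hx1m, rfl⟩ | rfl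
  · by_cases hxx : x = x1
    · subst hxx
      exact disjoint_sdiff_self_left
    · exact ((h.disj hx.1 hx1 hxx).mono_left sdiff_le).mono_right
        ((h.dec_le _ _).trans sdiff_le)
  · have hT : True_ m s := by
      intro s' hs'
      rcases Nat.eq_or_lt_of_le hs' with rfl | hs'
      · exact le_rfl
      · exact hy.2 s' (by omega)
    have hxb : x ≠ b s := fun hxb => hne ⟨hT, hxb⟩
    exact ((h.disj hx.1 (h.b_mem s) hxb).mono_left sdiff_le).mono_right
      ((h.dec_le _ _).trans (h.z_lt' s).le)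

/-- Every ideal `J` above the ideal whose elements are eventually `D e` is principal above it. -/
theorem principal (h : Cons m D dec b z L) (e : ℕ) (J : Order.Ideal Q) (hIJ : h.ideal ≤ J)
    (hJ1 : ∀ t p, D e t p → p ∈ J) (hJ2 : ∀ p ∈ J, ∃ t, D e t p) :
    ∃ w : Q, J = h.ideal ⊔ Order.Ideal.principal w := by
  classical
  -- the maximal state
  have hV : ∃ V, (∃ t x, Perm m L t x ∧ st D (e + 1) t x.2 = V) ∧
      ∀ t x, Perm m L t x → st D (e + 1) t x.2 ≤ V := by
    have hbdd : BddAbove {V | ∃ t x, Perm m L t x ∧ st D (e + 1) t x.2 = V} := by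
      refine ⟨2 ^ (e + 1), ?_⟩
      rintro V ⟨t, x, -, rfl⟩
      exact (st_lt_pow _ _ _).le
    have hne : {V | ∃ t x, Perm m L t x ∧ st D (e + 1) t x.2 = V}.Nonempty :=
      ⟨_, 0, _, h.perm_zero, rfl⟩
    refine ⟨sSup {V | ∃ t x, Perm m L t x ∧ st D (e + 1) t x.2 = V}, Nat.sSup_mem hne hbdd, ?_⟩
    intro t x hx
    exact le_csSup hbdd ⟨t, x, hx, rfl⟩
  obtain ⟨V, ⟨t0, x0, hx0, hV0⟩, hVmax⟩ := hV
  -- at late true stages the split piece has the maximal state
  have hbV : ∀ s, t0 ≤ s → e + 1 ≤ s → True_ m s → st D (e + 1) s (b s).2 = V := by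
    intro s hs hes hT
    obtain ⟨x', hx', -, hx'le⟩ := h.perm_desc hs hx0
    apply le_antisymm (hVmax _ _ (h.b_perm hT))
    calc V = st D (e + 1) t0 x0.2 := hV0.symm
      _ ≤ st D (e + 1) s x'.2 := st_mono fun i _ hi => h.D_mono hs hx'le hi
      _ ≤ st D (e + 1) s (b s).2 := st_prefix hes (h.b_max s x' hx'.1 (hx'.2 s le_rfl))
  set t1 := max t0 (e + 1) with ht1
  -- claim B
  have claimB : ∀ x, Perm m L t1 x → ∀ t, t1 ≤ t → ∀ y, Perm m L t y → y.2 ≤ x.2 → y.2 ∈ J →
      x.2 ∈ J := by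
    intro x hx t ht y hy hyx hyJ
    by_contra hxJ
    have key : ∀ s, t1 ≤ s → ∃ x', Perm m L s x' ∧ x.2 \ x'.2 ∈ h.ideal := by
      intro s hs
      induction s, hs using Nat.le_induction with
      | base =>
        refine ⟨x, hx, ?_⟩
        rw [sdiff_self]
        exact Order.Ideal.bot_mem _
      | succ s hs ih =>
        obtain ⟨x', hx', hd⟩ := ih
        by_cases hc : True_ m s ∧ x' = b s
        · exfalso
          obtain ⟨hT, rfl⟩ := hc
          have hbs := hbV s (le_trans (le_max_left _ _) hs) (le_trans (le_max_right _ _) hs) hT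
          obtain ⟨t3, ht3⟩ := hJ2 _ hyJ
          obtain ⟨y4, hy4, -, hy4le⟩ := h.perm_desc (show t ≤ max t (max s t3) by omega) hy
          have hD4 : D e (max t (max s t3)) y4.2 :=
            h.D_mono (by omega) hy4le ht3
          obtain ⟨x5, hx5, hy5⟩ := h.anc_perm (show s ≤ max t (max s t3) by omega) hy4
          have hx5b : x5 = b s := by
            by_contra hne
            have hdis := h.disj hx5.1 (h.b_mem s) hne
            have : y4.2 ≤ x.2 \ (b s).2 := by
              rw [le_sdiff]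
              exact ⟨hy4le.trans hyx, hdis.mono_left hy5⟩
            exact h.perm_not_mem hy4 (h.ideal.lower this hd)
          rw [hx5b] at hy5
          have hDs : D e s (b s).2 := by
            by_contra hnD
            have h1 := st_lt (D := D) (e := e) (t := s) (t' := max t (max s t3))
              (p := (b s).2) (p' := y4.2)
              (fun i _ hi => h.D_mono (by omega) hy5 hi) hnD hD4
            have h2 := hVmax _ _ hy4
            omega
          have hbJ := hJ1 _ _ hDs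
          apply hxJ
          refine J.lower ?_ (sup_mem_ideal (hIJ hd) hbJ)
          rw [sdiff_sup_self]
          exact le_sup_left
        · refine ⟨_, h.perm_succ hx', ?_⟩
          have h1 := h.step_diff_mem hx' hc
          refine h.ideal.lower ?_ (sup_mem_ideal hd h1)
          exact sdiff_triangle _ _ _
    obtain ⟨x', hx', hd⟩ := key t ht
    by_cases hyx' : y = x'
    · subst hyx'
      apply hxJ
      refine J.lower ?_ (sup_mem_ideal (hIJ hd) hyJ)
      rw [sdiff_sup_self]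
      exact le_sup_left
    · have hdis := h.disj hy.1 hx'.1 hyx'
      have : y.2 ≤ x.2 \ x'.2 := by
        rw [le_sdiff]; exact ⟨hyx, hdis⟩
      exact h.perm_not_mem hy (h.ideal.lower this hd)
  -- the generator
  set F : Finset (ℕ × Q) := (L t1).toFinset.filter
    (fun x => Perm m L t1 x ∧ ∃ t, t1 ≤ t ∧ ∃ y, Perm m L t y ∧ y.2 ≤ x.2 ∧ y.2 ∈ J) with hF
  have hwJ : F.sup Prod.snd ∈ J := by
    refine Finset.sup_induction (p := fun a => a ∈ J) (Order.Ideal.bot_mem _)
      (fun a ha c hc => sup_mem_ideal ha hc) ?_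
    intro x hx
    rw [hF, Finset.mem_filter] at hx
    obtain ⟨-, hx, t, ht, y, hy, hyx, hyJ⟩ := hx
    exact claimB x hx t ht y hy hyx hyJ
  refine ⟨F.sup Prod.snd, le_antisymm ?_ ?_⟩
  · intro a ha
    have hI : a \ F.sup Prod.snd ∈ h.ideal := by
      by_contra hcon
      obtain ⟨n, hn⟩ := h.exists_perm_le hcon
      obtain ⟨y, hy, hya⟩ := hn (max n t1) (le_max_left _ _)
      obtain ⟨x, hx, hyx⟩ := h.anc_perm (le_max_right n t1) hy
      have hxF : x ∈ F := by
        rw [hF, Finset.mem_filter]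
        refine ⟨List.mem_toFinset.2 hx.1, hx, max n t1, le_max_right _ _, y, hy, hyx, ?_⟩
        exact J.lower (hya.trans sdiff_le) ha
      have h1 : y.2 ≤ F.sup Prod.snd := hyx.trans (Finset.le_sup (f := Prod.snd) hxF)
      have h2 : Disjoint y.2 (F.sup Prod.snd) := (le_sdiff.1 hya).2
      exact h.ne_bot hy.1 (le_bot_iff.1 (h2 le_rfl h1))
    rw [Order.Ideal.mem_sup]
    exact ⟨_, hI, _, Order.Ideal.mem_principal_self, by rw [sdiff_sup_self]; exact le_sup_left⟩
  · rw [sup_le_iff]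
    refine ⟨hIJ, ?_⟩
    rw [Order.Ideal.principal_le_iff]
    exact hwJ

theorem inj_new (h : Cons m D dec b z L) {t t' : ℕ} (ht : True_ m t) (hlt : t < t')
    (heq : h.ideal ⊔ Order.Ideal.principal (dec t (z t)) =
      h.ideal ⊔ Order.Ideal.principal (dec t' (z t'))) : False := by
  have h1 : dec t (z t) ∈ h.ideal ⊔ Order.Ideal.principal (dec t' (z t')) := by
    rw [← heq]
    exact (le_sup_right : Order.Ideal.principal (dec t (z t)) ≤ _)
      (Order.Ideal.mem_principal_self)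
  rw [Order.Ideal.mem_sup] at h1
  obtain ⟨i, hi, j, hj, hij⟩ := h1
  rw [Order.Ideal.mem_principal] at hj
  have h2 : dec t (z t) \ dec t' (z t') ∈ h.ideal := by
    refine h.ideal.lower ?_ hi
    rw [sdiff_le_iff]
    refine hij.trans ?_
    rw [sup_comm]
    exact sup_le_sup_right hj _
  obtain ⟨x', hx', -, hx'le⟩ := h.perm_desc (show t + 1 ≤ t' by omega) (h.new_perm ht)
  have h3 := h.perm_succ hx'
  apply h.perm_not_mem h3
  refine h.ideal.lower ?_ h2
  rw [le_sdiff]
  refine ⟨((h.dec_le _ _).trans sdiff_le).trans hx'le, ?_⟩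
  exact (disjoint_sdiff_self_left.mono_left (h.dec_le _ _)).mono_right (h.dec_le _ _)

theorem infinite_family (h : Cons m D dec b z L) {S : Set (Order.Ideal Q)}
    (hS : ∀ x : Q, h.ideal ⊔ Order.Ideal.principal x ∈ S) : S.Infinite := by
  have hinf : {t | True_ m t}.Infinite := by
    rw [Set.infinite_iff_exists_gt]
    intro k
    obtain ⟨t, ht, hT⟩ := exists_true m (k + 1)
    exact ⟨t, hT, by omega⟩
  refine Set.infinite_of_injOn_mapsTo
    (f := fun t => h.ideal ⊔ Order.Ideal.principal (dec t (z t))) (s := {t | True_ m t})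
    ?_ (fun t _ => hS _) hinf
  intro t ht t' ht' heq
  by_contra hne
  rcases Nat.lt_or_gt_of_ne hne with hlt | hlt
  · exact h.inj_new ht hlt heq
  · exact h.inj_new ht' hlt heq.symm

end Cons

end Pool.Agent.Lib45
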