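import Mathlib

/-!
Definitions for the statement on the degrees of maximal c.e. ideals of a decidable presentation
of the countable atomless Boolean algebra.
-/

namespace Pool.Agent.CeIdeals

/-- The characteristic function of a set of natural numbers, as a (total) partial function. -/
noncomputable def charFun (A : Set ℕ) : ℕ →. ℕ :=
  fun n => Part.some (A.indicator (fun _ => 1) n)

/-- The Turing degree of a set of natural numbers. -/
noncomputable def degree (A : Set ℕ) : TuringDegree :=
  toAntisymmetrization TuringReducible (charFun A)

/-- A decidable presentation of the Boolean algebra `Q`: the elements of `Q` are identified by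
means of the injective map `code` with the members of a computable subset of `ℕ`, in such a way
that the Boolean operations and the order are computable. -/
structure DecidablePresentation (Q : Type*) [BooleanAlgebra Q] where
  /-- the code of an element -/
  code : Q → ℕ
  code_injective : Function.Injective code
  universe_computable : ComputablePred fun n : ℕ => n ∈ Set.range code
  sup_computable : ∃ f : ℕ → ℕ → ℕ, Computable₂ f ∧ ∀ x y, f (code x) (code y) = code (x ⊔ y)
  inf_computable : ∃ f : ℕ → ℕ → ℕ, Computable₂ f ∧ ∀ x y, f (code x) (code y) = code (x ⊓ y)
  compl_computable : ∃ f : ℕ → ℕ, Computable f ∧ ∀ x, f (code x) = code xᶜ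
  le_computable : ∃ r : ℕ → ℕ → Bool, Computable₂ r ∧ ∀ x y, r (code x) (code y) = true ↔ x ≤ y

namespace DecidablePresentation

variable {Q : Type*} [BooleanAlgebra Q] (P : DecidablePresentation Q)

/-- The set of codes of the elements of an ideal. -/
def codes (I : Order.Ideal Q) : Set ℕ := P.code '' (I : Set Q)

/-- An ideal is c.e. if the set of codes of its elements is computably enumerable. -/
def IsCE (I : Order.Ideal Q) : Prop := REPred fun n : ℕ => n ∈ P.codes I

/-- A c.e. ideal `I` with infinitely many c.e. ideals extending it is maximal if every c.e. ideal
extending it is generated by `I` and a single element. -/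
structure IsMaximal (I : Order.Ideal Q) : Prop where
  ce : P.IsCE I
  infinite_above : {J : Order.Ideal Q | P.IsCE J ∧ I ≤ J}.Infinite
  principal_above : ∀ J : Order.Ideal Q, P.IsCE J → I ≤ J →
    ∃ x : Q, J = I ⊔ Order.Ideal.principal x

end DecidablePresentation

end Pool.Agent.CeIdeals
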