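import Pool.Agent.Lib_helper45.Comp
import Pool.Agent.Lib_helper45.Thin
import Pool.Agent.Lib_helper45.ThinDefs

/-!
Effective implementation of the construction of a maximal c.e. ideal of a prescribed c.e. degree.
-/

namespace Pool.Agent.Lib45

open Pool.Agent.CeIdeals
open Nat.Partrec (Code)

/-! ### elementary computable functions -/

section Elem

variable {α : Type*} [Primcodable α]

theorem c_eq {f g : α → ℕ} (hf : Computable f) (hg : Computable g) :
    Computable fun a => decide (f a = g a) :=
  (Primrec.eq (α := ℕ)).decide.to_comp.comp hf hg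

theorem c_lt {f g : α → ℕ} (hf : Computable f) (hg : Computable g) :
    Computable fun a => decide (f a < g a) :=
  Primrec.nat_lt.decide.to_comp.comp hf hg

theorem c_le {f g : α → ℕ} (hf : Computable f) (hg : Computable g) :
    Computable fun a => decide (f a ≤ g a) :=
  Primrec.nat_le.decide.to_comp.comp hf hg

theorem c_and {f g : α → Bool} (hf : Computable f) (hg : Computable g) :
    Computable fun a => f a && g a :=
  Primrec.and.to_comp.comp hf hg

theorem c_or {f g : α → Bool} (hf : Computable f) (hg : Computable g) :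
    Computable fun a => f a || g a :=
  Primrec.or.to_comp.comp hf hg

theorem c_not {f : α → Bool} (hf : Computable f) : Computable fun a => !f a :=
  Primrec.not.to_comp.comp hf

theorem c_add {f g : α → ℕ} (hf : Computable f) (hg : Computable g) :
    Computable fun a => f a + g a :=
  Primrec.nat_add.to_comp.comp hf hg

theorem c_mul {f g : α → ℕ} (hf : Computable f) (hg : Computable g) :
    Computable fun a => f a * g a :=
  Primrec.nat_mul.to_comp.comp hf hg

theorem c_fst : Computable (fun p : α × ℕ => p.1) := Computable.fst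

end Elem

/-! ### enumeration of a c.e. set -/

section Enum

/-- finite stages of the domain of a code -/
def inA (c : Code) (t n : ℕ) : Bool := (Code.evaln t c n).isSome

theorem computable_inA₃ : Computable fun p : (ℕ × Code) × ℕ => inA p.1.2 p.1.1 p.2 :=
  Primrec.option_isSome.to_comp.comp Code.primrec_evaln.to_comp

theorem computable_inA {α : Type*} [Primcodable α] {f g : α → ℕ} (c : Code)
    (hf : Computable f) (hg : Computable g) : Computable fun a => inA c (f a) (g a) :=
  computable_inA₃.comp (Computable.pair (Computable.pair hf (Computable.const c)) hg)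

theorem inA_mono {c : Code} {t t' n : ℕ} (h : t ≤ t') (hn : inA c t n = true) :
    inA c t' n = true := by
  unfold inA at *
  rw [Option.isSome_iff_exists] at *
  obtain ⟨x, hx⟩ := hn
  exact ⟨x, Code.evaln_mono h hx⟩

theorem inA_iff {c : Code} {n : ℕ} : (∃ t, inA c t n = true) ↔ (c.eval n).Dom := by
  rw [Part.dom_iff_mem]
  unfold inA
  constructor
  · rintro ⟨t, ht⟩
    rw [Option.isSome_iff_exists] at ht
    obtain ⟨x, hx⟩ := ht
    exact ⟨x, Code.evaln_sound hx⟩
  · rintro ⟨x, hx⟩
    obtain ⟨k, hk⟩ := Code.evaln_complete.1 hx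
    exact ⟨k, by rw [Option.isSome_iff_exists]; exact ⟨x, hk⟩⟩

theorem exists_code_of_re {p : ℕ → Prop} (hp : REPred p) :
    ∃ c : Code, ∀ n, p n ↔ (c.eval n).Dom := by
  have h1 : Nat.Partrec fun n => (Part.assert (p n) fun _ => Part.some ()).map Encodable.encode :=
    Partrec.nat_iff.1 (hp.map ((Computable.encode (α := Unit)).comp Computable.snd).to₂)
  obtain ⟨c, hc⟩ := Code.exists_code.1 h1
  refine ⟨c, fun n => ?_⟩
  rw [hc]
  constructor
  · intro h
    exact ⟨h, trivial⟩
  · rintro ⟨h, -⟩
    exact h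

/-- the tag of stage `t`: the least number enumerated at stage `t`, if it is `< t`, or `t` -/
def mtag (c : Code) (t : ℕ) : ℕ :=
  Nat.find (p := fun n => n = t ∨ (inA c (t + 1) n = true ∧ inA c t n = false)) ⟨t, Or.inl rfl⟩

theorem computable_mtag (c : Code) : Computable (mtag c) := by
  have hP : ComputablePred fun p : ℕ × ℕ =>
      (fun t n => n = t ∨ (inA c (t + 1) n = true ∧ inA c t n = false)) p.1 p.2 := by
    refine ⟨fun p => inferInstanceAs (Decidable (_ ∨ _)), ?_⟩
    have : Computable fun p : ℕ × ℕ =>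
        (decide (p.2 = p.1) || (inA c (p.1 + 1) p.2 && !inA c p.1 p.2)) := by
      refine c_or (c_eq Computable.snd Computable.fst) (c_and ?_ (c_not ?_))
      · exact computable_inA c (Computable.succ.comp Computable.fst) Computable.snd
      · exact computable_inA c Computable.fst Computable.snd
    refine this.of_eq fun p => ?_
    rw [Bool.eq_iff_iff]
    simp
  exact Computable.find (P := fun t n => n = t ∨ (inA c (t + 1) n = true ∧ inA c t n = false))
    hP (fun t => ⟨t, Or.inl rfl⟩)

theorem mtag_le (c : Code) (t : ℕ) : mtag c t ≤ t := Nat.find_min' _ (Or.inl rfl)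

theorem mtag_le_of_new {c : Code} {t n : ℕ} (h1 : inA c (t + 1) n = true)
    (h2 : inA c t n = false) : mtag c t ≤ n := Nat.find_min' _ (Or.inr ⟨h1, h2⟩)

theorem mtag_spec (c : Code) (t : ℕ) :
    mtag c t = t ∨ (inA c (t + 1) (mtag c t) = true ∧ inA c t (mtag c t) = false) :=
  Nat.find_spec (p := fun n => n = t ∨ (inA c (t + 1) n = true ∧ inA c t n = false))
    ⟨t, Or.inl rfl⟩

/-- settling stages -/
theorem exists_settle (c : Code) (n : ℕ) :
    ∃ k, ∀ i, i ≤ n → (∃ t, inA c t i = true) → inA c k i = true := by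
  induction n with
  | zero =>
    by_cases h : ∃ t, inA c t 0 = true
    · obtain ⟨t, ht⟩ := h
      exact ⟨t, fun i hi _ => by rw [Nat.le_zero.1 hi]; exact ht⟩
    · exact ⟨0, fun i hi hi' => absurd (by rw [Nat.le_zero.1 hi] at hi'; exact hi') h⟩
  | succ n ih =>
    obtain ⟨k, hk⟩ := ih
    by_cases h : ∃ t, inA c t (n + 1) = true
    · obtain ⟨t, ht⟩ := h
      refine ⟨max k t, fun i hi hi' => ?_⟩
      rcases Nat.le_succ_iff.1 hi with hi | rfl
      · exact inA_mono (le_max_left _ _) (hk i hi hi')
      · exact inA_mono (le_max_right _ _) ht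
    · refine ⟨k, fun i hi hi' => ?_⟩
      rcases Nat.le_succ_iff.1 hi with hi | rfl
      · exact hk i hi hi'
      · exact absurd hi' h

theorem mtag_unbounded (c : Code) (n : ℕ) : ∃ k, ∀ t, k ≤ t → n < mtag c t := by
  obtain ⟨k, hk⟩ := exists_settle c n
  refine ⟨max k (n + 1), fun t ht => ?_⟩
  by_contra hlt
  push Not at hlt
  rcases mtag_spec c t with h | ⟨h1, h2⟩
  · have := le_trans (le_max_right k (n + 1)) ht
    omega
  · have := hk _ hlt ⟨_, h1⟩
    have := inA_mono (le_trans (le_max_left _ _) ht) this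
    rw [h2] at this
    exact absurd this (by decide)

/-- true stages in terms of the enumerated set -/
theorem true_iff (c : Code) (t : ℕ) :
    Cons.True_ (mtag c) t ↔ ∀ n < mtag c t, (∃ s, inA c s n = true) → inA c (t + 1) n = true := by
  constructor
  · intro hT n hn hex
    by_contra hcon
    rw [Bool.not_eq_true] at hcon
    classical
    have hs := Nat.find_spec hex
    set s := Nat.find hex with hsdef
    have hspos : t + 1 < s := by
      by_contra hle
      push Not at hle
      rw [inA_mono hle hs] at hcon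
      exact absurd hcon (by decide)
    obtain ⟨r, hr⟩ : ∃ r, s = r + 1 := ⟨s - 1, by omega⟩
    have hr2 : inA c r n = false := by
      have := Nat.find_min hex (m := r) (by omega)
      simpa using this
    rw [hr] at hs
    have h1 := mtag_le_of_new hs hr2
    have h2 := hT r (by omega)
    omega
  · intro h s hs
    by_contra hlt
    push Not at hlt
    rcases mtag_spec c s with h1 | ⟨h1, h2⟩
    · have := mtag_le c t
      omega
    · have h3 := h _ hlt ⟨_, h1⟩
      rcases Nat.eq_or_lt_of_le hs with rfl | hs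
      · omega
      · rw [inA_mono (show t + 1 ≤ s by omega) h3] at h2
        exact absurd h2 (by decide)

end Enum

/-! ### functions on codes -/

section Codes

variable {Q : Type*} [BooleanAlgebra Q]

/-- chosen computable functions of a decidable presentation -/
structure Fns (P : DecidablePresentation Q) where
  isC : ℕ → Bool
  isC_comp : Computable isC
  isC_iff : ∀ n, isC n = true ↔ n ∈ Set.range P.code
  inf : ℕ → ℕ → ℕ
  inf_comp : Computable₂ inf
  inf_eq : ∀ x y, inf (P.code x) (P.code y) = P.code (x ⊓ y)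
  compl : ℕ → ℕ
  compl_comp : Computable compl
  compl_eq : ∀ x, compl (P.code x) = P.code xᶜ
  le : ℕ → ℕ → Bool
  le_comp : Computable₂ le
  le_iff : ∀ x y, le (P.code x) (P.code y) = true ↔ x ≤ y

theorem exists_fns (P : DecidablePresentation Q) : Nonempty (Fns P) := by
  obtain ⟨f, hf, hf'⟩ := P.inf_computable
  obtain ⟨g, hg, hg'⟩ := P.compl_computable
  obtain ⟨r, hr, hr'⟩ := P.le_computable
  obtain ⟨i, hi, hi'⟩ := ComputablePred.computable_iff.1 P.universe_computable
  refine ⟨⟨i, hi, fun n => ?_, f, hf, hf', g, hg, hg', r, hr, hr'⟩⟩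
  exact (iff_of_eq (congrFun hi' n)).symm

variable {P : DecidablePresentation Q} (F : Fns P)

namespace Fns

/-- difference on codes -/
def sd (a b : ℕ) : ℕ := F.inf a (F.compl b)

theorem sd_eq (x y : Q) : F.sd (P.code x) (P.code y) = P.code (x \ y) := by
  unfold sd
  rw [F.compl_eq, F.inf_eq, sdiff_eq]

theorem computable_sd {α : Type*} [Primcodable α] {f g : α → ℕ}
    (hf : Computable f) (hg : Computable g) : Computable fun a => F.sd (f a) (g a) :=
  F.inf_comp.comp hf (F.compl_comp.comp hg)

/-- decoding -/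
noncomputable def dq (P : DecidablePresentation Q) (n : ℕ) : Q := Function.invFun P.code n

omit F in
theorem dq_code (p : Q) : dq P (P.code p) = p :=
  Function.leftInverse_invFun P.code_injective p

/-- deciding the element with code `t` -/
def decC (t c : ℕ) : ℕ :=
  bif (F.isC t && !decide (F.inf c t = P.code ⊥)) then F.inf c t else c

theorem computable_decC {α : Type*} [Primcodable α] {f g : α → ℕ}
    (hf : Computable f) (hg : Computable g) : Computable fun a => F.decC (f a) (g a) := by
  have h1 : Computable fun a => F.inf (g a) (f a) := F.inf_comp.comp hg hf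
  exact Computable.cond (c_and (F.isC_comp.comp hf) (c_not (c_eq h1 (Computable.const _)))) h1 hg

/-- the same on the algebra -/
noncomputable def decQ (t : ℕ) (p : Q) : Q := dq P (F.decC t (P.code p))

theorem decQ_cases (t : ℕ) (p : Q) :
    (F.decC t (P.code p) = P.code p ∧ F.decQ t p = p ∧
      ∀ q, P.code q = t → Disjoint p q) ∨
    (∃ q, P.code q = t ∧ p ⊓ q ≠ ⊥ ∧ F.decC t (P.code p) = P.code (p ⊓ q) ∧
      F.decQ t p = p ⊓ q) := by
  by_cases h1 : F.isC t = true
  · obtain ⟨q, rfl⟩ := (F.isC_iff t).1 h1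
    by_cases h2 : p ⊓ q = ⊥
    · left
      have h3 : F.decC (P.code q) (P.code p) = P.code p := by
        unfold decC
        rw [F.inf_eq, h2]
        simp
      refine ⟨h3, ?_, ?_⟩
      · unfold decQ; rw [h3, dq_code]
      · intro q' hq'
        rw [P.code_injective hq']
        exact disjoint_iff.2 h2
    · right
      have h3 : F.decC (P.code q) (P.code p) = P.code (p ⊓ q) := by
        unfold decC
        rw [F.inf_eq, h1]
        have : ¬ P.code (p ⊓ q) = P.code ⊥ := fun h => h2 (P.code_injective h)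
        simp [this]
      refine ⟨q, rfl, h2, h3, ?_⟩
      unfold decQ; rw [h3, dq_code]
  · left
    rw [Bool.not_eq_true] at h1
    have h3 : F.decC t (P.code p) = P.code p := by
      unfold decC
      rw [h1]; simp
    refine ⟨h3, ?_, ?_⟩
    · unfold decQ; rw [h3, dq_code]
    · intro q hq
      exfalso
      have := (F.isC_iff t).2 ⟨q, hq⟩
      rw [h1] at this
      exact absurd this (by decide)

theorem code_decQ (t : ℕ) (p : Q) : P.code (F.decQ t p) = F.decC t (P.code p) := by
  rcases F.decQ_cases t p with ⟨h1, h2, -⟩ | ⟨q, -, -, h1, h2⟩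
  · rw [h1, h2]
  · rw [h1, h2]

theorem decQ_le (t : ℕ) (p : Q) : F.decQ t p ≤ p := by
  rcases F.decQ_cases t p with ⟨-, h2, -⟩ | ⟨q, -, -, -, h2⟩
  · rw [h2]
  · rw [h2]; exact inf_le_left

theorem decQ_ne_bot (t : ℕ) (p : Q) (hp : p ≠ ⊥) : F.decQ t p ≠ ⊥ := by
  rcases F.decQ_cases t p with ⟨-, h2, -⟩ | ⟨q, -, h3, -, h2⟩
  · rw [h2]; exact hp
  · rw [h2]; exact h3

theorem decQ_decides (q : Q) : ∃ n, ∀ p, F.decQ n p ≤ q ∨ Disjoint (F.decQ n p) q := by
  refine ⟨P.code q, fun p => ?_⟩
  rcases F.decQ_cases (P.code q) p with ⟨-, h2, h4⟩ | ⟨q', hq', -, -, h2⟩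
  · right; rw [h2]; exact h4 q rfl
  · left; rw [h2, P.code_injective hq']; exact inf_le_right

/-- search for a proper nonzero part -/
def HalfP (c n : ℕ) : Prop :=
  ((F.isC c = false ∨ c = P.code ⊥) ∧ n = P.code ⊥) ∨
    (F.isC n = true ∧ n ≠ P.code ⊥ ∧ n ≠ c ∧ F.le n c = true)

instance : DecidableRel F.HalfP := fun c n => by unfold HalfP; infer_instance

theorem halfP_ex (hQ : ∀ x : Q, x ≠ ⊥ → ∃ y, ⊥ < y ∧ y < x) (c : ℕ) : ∃ n, F.HalfP c n := by
  by_cases h : F.isC c = false ∨ c = P.code ⊥
  · exact ⟨_, Or.inl ⟨h, rfl⟩⟩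
  · push Not at h
    obtain ⟨h1, h2⟩ := h
    rw [ne_eq, Bool.not_eq_false] at h1
    obtain ⟨p, rfl⟩ := (F.isC_iff c).1 h1
    have hp : p ≠ ⊥ := fun h => h2 (by rw [h])
    obtain ⟨y, hy1, hy2⟩ := hQ p hp
    refine ⟨P.code y, Or.inr ⟨(F.isC_iff _).2 ⟨y, rfl⟩, ?_, ?_, ?_⟩⟩
    · exact fun h => hy1.ne' (P.code_injective h)
    · exact fun h => hy2.ne (P.code_injective h)
    · exact (F.le_iff _ _).2 hy2.le

/-- a proper nonzero part -/
def halfC (hQ : ∀ x : Q, x ≠ ⊥ → ∃ y, ⊥ < y ∧ y < x) (c : ℕ) : ℕ := Nat.find (F.halfP_ex hQ c)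

theorem computable_halfC (hQ : ∀ x : Q, x ≠ ⊥ → ∃ y, ⊥ < y ∧ y < x) :
    Computable (F.halfC hQ) := by
  have hP : ComputablePred fun p : ℕ × ℕ => F.HalfP p.1 p.2 := by
    refine ⟨fun p => inferInstance, ?_⟩
    have : Computable fun p : ℕ × ℕ =>
        (((!F.isC p.1 || decide (p.1 = P.code ⊥)) && decide (p.2 = P.code ⊥)) ||
          (F.isC p.2 && (!decide (p.2 = P.code ⊥) && (!decide (p.2 = p.1) && F.le p.2 p.1)))) := by
      refine c_or (c_and (c_or (c_not (F.isC_comp.comp Computable.fst))
        (c_eq Computable.fst (Computable.const _))) (c_eq Computable.snd (Computable.const _)))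
        (c_and (F.isC_comp.comp Computable.snd) (c_and (c_not (c_eq Computable.snd
          (Computable.const _))) (c_and (c_not (c_eq Computable.snd Computable.fst)) ?_)))
      exact F.le_comp.comp Computable.snd Computable.fst
    refine this.of_eq fun p => ?_
    rw [Bool.eq_iff_iff, decide_eq_true_iff]
    simp [HalfP]
  exact Computable.find hP (F.halfP_ex hQ)

theorem halfC_spec (hQ : ∀ x : Q, x ≠ ⊥ → ∃ y, ⊥ < y ∧ y < x) {p : Q} (hp : p ≠ ⊥) :
    ∃ y, P.code y = F.halfC hQ (P.code p) ∧ y ≠ ⊥ ∧ y < p := by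
  rcases Nat.find_spec (F.halfP_ex hQ (P.code p)) with ⟨h, -⟩ | ⟨h1, h2, h3, h4⟩
  · exfalso
    rcases h with h | h
    · have := (F.isC_iff _).2 ⟨p, rfl⟩
      rw [h] at this
      exact absurd this (by decide)
    · exact hp (P.code_injective h)
  · obtain ⟨y, hy⟩ := (F.isC_iff _).1 h1
    refine ⟨y, hy, ?_, ?_⟩
    · intro h; apply h2; rw [← hy, h]
    · rw [← hy] at h3 h4
      exact lt_of_le_of_ne ((F.le_iff _ _).1 h4) (fun h => h3 (by rw [h]))

theorem halfC_range (hQ : ∀ x : Q, x ≠ ⊥ → ∃ y, ⊥ < y ∧ y < x) (c : ℕ) :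
    ∃ y, P.code y = F.halfC hQ c := by
  rcases Nat.find_spec (F.halfP_ex hQ c) with ⟨-, h⟩ | ⟨h1, -⟩
  · exact ⟨⊥, h.symm⟩
  · exact (F.isC_iff _).1 h1

/-- `p` is below an element enumerated by `W_e` before stage `t` -/
def DB (e t c : ℕ) : Bool :=
  bex (fun w => inA (Denumerable.ofNat Code e) t w && (F.isC w && F.le c w)) t

theorem computable_DB {α : Type*} [Primcodable α] {e t c : α → ℕ} (he : Computable e)
    (ht : Computable t) (hc : Computable c) : Computable fun a => F.DB (e a) (t a) (c a) := by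
  unfold DB
  refine computable_bex (P := fun a w => inA (Denumerable.ofNat Code (e a)) (t a) w &&
    (F.isC w && F.le (c a) w)) ht ?_
  refine c_and ?_ (c_and (F.isC_comp.comp Computable.snd) ?_)
  · exact computable_inA₃.comp (Computable.pair (Computable.pair (ht.comp Computable.fst)
      ((Computable.ofNat Code).comp (he.comp Computable.fst))) Computable.snd)
  · exact F.le_comp.comp (hc.comp Computable.fst) Computable.snd

/-- the same on the algebra -/
def DQ (e t : ℕ) (p : Q) : Prop := F.DB e t (P.code p) = true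

theorem DQ_iff {e t : ℕ} {p : Q} :
    F.DQ e t p ↔ ∃ q, P.code q < t ∧ inA (Denumerable.ofNat Code e) t (P.code q) = true ∧
      p ≤ q := by
  unfold DQ DB
  rw [bex_iff]
  constructor
  · rintro ⟨w, hw, h⟩
    simp only [Bool.and_eq_true] at h
    obtain ⟨h1, h2, h3⟩ := h
    obtain ⟨q, rfl⟩ := (F.isC_iff w).1 h2
    exact ⟨q, hw, h1, (F.le_iff _ _).1 h3⟩
  · rintro ⟨q, h1, h2, h3⟩
    refine ⟨P.code q, h1, ?_⟩
    simp only [Bool.and_eq_true]
    exact ⟨h2, (F.isC_iff _).2 ⟨q, rfl⟩, (F.le_iff _ _).2 h3⟩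

/-- states on codes -/
def stC (k t c : ℕ) : ℕ :=
  Nat.rec (motive := fun _ => ℕ) 0 (fun i IH => 2 * IH + bif F.DB i t c then 1 else 0) k

theorem st_eq (k t : ℕ) (p : Q) : st F.DQ k t p = F.stC k t (P.code p) := by
  induction k with
  | zero => rfl
  | succ k ih =>
    rw [st_succ, ih]
    show _ = 2 * F.stC k t (P.code p) + bif F.DB k t (P.code p) then 1 else 0
    unfold DQ
    cases F.DB k t (P.code p) <;> simp

theorem computable_stC {α : Type*} [Primcodable α] {k t c : α → ℕ} (hk : Computable k)
    (ht : Computable t) (hc : Computable c) : Computable fun a => F.stC (k a) (t a) (c a) := by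
  unfold stC
  refine Computable.nat_rec (h := fun a (p : ℕ × ℕ) => 2 * p.2 +
    bif F.DB p.1 (t a) (c a) then 1 else 0) hk (Computable.const _) ?_
  refine c_add (c_mul (Computable.const _) (Computable.snd.comp Computable.snd))
    (Computable.cond ?_ (Computable.const _) (Computable.const _))
  exact F.computable_DB (Computable.fst.comp Computable.snd) (ht.comp Computable.fst)
    (hc.comp Computable.fst)

/-- the piece of maximal state -/
def best (t : ℕ) (l : List (ℕ × ℕ)) : ℕ × ℕ :=
  l.foldl (fun b x => bif decide (F.stC t t b.2 < F.stC t t x.2) then x else b) l.headI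

theorem best_aux (g : ℕ × ℕ → ℕ) (l : List (ℕ × ℕ)) (a : ℕ × ℕ) :
    (l.foldl (fun b x => bif decide (g b < g x) then x else b) a ∈ a :: l) ∧
    ∀ x ∈ a :: l, g x ≤ g (l.foldl (fun b x => bif decide (g b < g x) then x else b) a) := by
  induction l generalizing a with
  | nil => simp
  | cons y l ih =>
    rw [List.foldl_cons]
    by_cases h : g a < g y
    · simp only [h, decide_true, cond_true]
      obtain ⟨h1, h2⟩ := ih y
      refine ⟨List.mem_cons_of_mem _ h1, ?_⟩
      intro x hx
      rcases List.mem_cons.1 hx with rfl | hx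
      · exact h.le.trans (h2 y List.mem_cons_self)
      · exact h2 x hx
    · simp only [h, decide_false, cond_false]
      obtain ⟨h1, h2⟩ := ih a
      refine ⟨?_, ?_⟩
      · rcases List.mem_cons.1 h1 with h1 | h1
        · rw [h1]; exact List.mem_cons_self
        · exact List.mem_cons_of_mem _ (List.mem_cons_of_mem _ h1)
      · intro x hx
        rcases List.mem_cons.1 hx with rfl | hx
        · exact h2 _ List.mem_cons_self
        · rcases List.mem_cons.1 hx with rfl | hx
          · exact (not_lt.1 h).trans (h2 _ List.mem_cons_self)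
          · exact h2 x (List.mem_cons_of_mem _ hx)

theorem best_spec (t : ℕ) {l : List (ℕ × ℕ)} (hl : l ≠ []) :
    F.best t l ∈ l ∧ ∀ x ∈ l, F.stC t t x.2 ≤ F.stC t t (F.best t l).2 := by
  obtain ⟨h1, h2⟩ := best_aux (fun x => F.stC t t x.2) l l.headI
  obtain ⟨y, l', rfl⟩ : ∃ y l', l = y :: l' := List.exists_cons_of_ne_nil hl
  refine ⟨?_, fun x hx => h2 x (List.mem_cons_of_mem _ hx)⟩
  rcases List.mem_cons.1 h1 with h1 | h1
  · unfold best; rw [h1]; exact List.mem_cons_self
  · exact h1

theorem computable_best : Computable fun p : ℕ × List (ℕ × ℕ) => F.best p.1 p.2 := by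
  unfold best
  refine computable_foldl (h := fun (p : ℕ × List (ℕ × ℕ)) (q : (ℕ × ℕ) × (ℕ × ℕ)) =>
    bif decide (F.stC p.1 p.1 q.1.2 < F.stC p.1 p.1 q.2.2) then q.2 else q.1)
    Computable.snd (Primrec.list_headI.to_comp.comp Computable.snd) ?_
  have h1 : Computable fun r : (ℕ × List (ℕ × ℕ)) × ((ℕ × ℕ) × (ℕ × ℕ)) => r.1.1 :=
    Computable.fst.comp Computable.fst
  refine Computable.cond (c_lt ?_ ?_) (Computable.snd.comp Computable.snd)
    (Computable.fst.comp Computable.snd)
  · exact F.computable_stC h1 h1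
      (Computable.snd.comp (Computable.fst.comp Computable.snd))
  · exact F.computable_stC h1 h1
      (Computable.snd.comp (Computable.snd.comp Computable.snd))

/-- the retained pieces -/
def keepC (cA : Code) (t : ℕ) (l : List (ℕ × ℕ)) : List (ℕ × ℕ) :=
  l.filter (fun x => decide (x.1 ≤ mtag cA t))

theorem computable_keepC (cA : Code) :
    Computable fun p : ℕ × List (ℕ × ℕ) => keepC cA p.1 p.2 := by
  unfold keepC
  refine computable_filter (g := fun (p : ℕ × List (ℕ × ℕ)) (x : ℕ × ℕ) =>
    decide (x.1 ≤ mtag cA p.1)) Computable.snd ?_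
  exact c_le (Computable.fst.comp Computable.snd)
    ((computable_mtag cA).comp (Computable.fst.comp Computable.fst))

variable (hQ : ∀ x : Q, x ≠ ⊥ → ∃ y, ⊥ < y ∧ y < x) (cA : Code)

attribute [local irreducible] halfC best keepC

/-- the new piece before deciding -/
def zC (t : ℕ) (l : List (ℕ × ℕ)) : ℕ := F.halfC hQ (F.best t (keepC cA t l)).2

theorem computable_zC : Computable fun p : ℕ × List (ℕ × ℕ) => F.zC hQ cA p.1 p.2 := by
  have h0 : Computable fun p : ℕ × List (ℕ × ℕ) => (p.1, keepC cA p.1 p.2) :=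
    Computable.pair Computable.fst (computable_keepC cA)
  have h1 : Computable fun p : ℕ × List (ℕ × ℕ) => F.best p.1 (keepC cA p.1 p.2) :=
    F.computable_best.comp h0
  have h2 : Computable fun p : ℕ × List (ℕ × ℕ) => (F.best p.1 (keepC cA p.1 p.2)).2 :=
    Computable.snd.comp h1
  have h3 : Computable fun p : ℕ × List (ℕ × ℕ) =>
      F.halfC hQ (F.best p.1 (keepC cA p.1 p.2)).2 := (F.computable_halfC hQ).comp h2
  exact h3.of_eq fun p => by rw [zC]

/-- one step of the construction -/
def stepC (t : ℕ) (l : List (ℕ × ℕ)) : List (ℕ × ℕ) :=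
  (keepC cA t l).map (fun x => (x.1, F.decC t (F.sd x.2 (F.zC hQ cA t l))))
    ++ [(mtag cA t, F.decC t (F.zC hQ cA t l))]

theorem computable_stepC : Computable fun p : ℕ × List (ℕ × ℕ) => F.stepC hQ cA p.1 p.2 := by
  unfold stepC
  refine Computable.list_append.comp ?_ ?_
  · refine computable_map (g := fun (p : ℕ × List (ℕ × ℕ)) (x : ℕ × ℕ) =>
      (x.1, F.decC p.1 (F.sd x.2 (F.zC hQ cA p.1 p.2)))) (computable_keepC cA) ?_
    refine Computable.pair (Computable.fst.comp Computable.snd) ?_
    refine F.computable_decC (Computable.fst.comp Computable.fst) ?_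
    exact F.computable_sd (Computable.snd.comp Computable.snd)
      ((F.computable_zC hQ cA).comp Computable.fst)
  · refine Computable.list_cons.comp (Computable.pair ((computable_mtag cA).comp Computable.fst)
      (F.computable_decC Computable.fst (F.computable_zC hQ cA))) (Computable.const _)

/-- the construction -/
def LC (t : ℕ) : List (ℕ × ℕ) :=
  Nat.rec (motive := fun _ => List (ℕ × ℕ)) [(0, P.code ⊤)] (fun t l => F.stepC hQ cA t l) t

theorem LC_succ (t : ℕ) : F.LC hQ cA (t + 1) = F.stepC hQ cA t (F.LC hQ cA t) := rfl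

theorem computable_LC : Computable (F.LC hQ cA) := by
  have hstep : Computable₂ fun (_ : ℕ) (p : ℕ × List (ℕ × ℕ)) => F.stepC hQ cA p.1 p.2 :=
    (F.computable_stepC hQ cA).comp Computable.snd
  exact Computable.nat_rec (f := fun t : ℕ => t) (g := fun _ : ℕ => [(0, P.code ⊤)])
    Computable.id (Computable.const _) hstep

/-- decoding of pieces -/
noncomputable def dp (P : DecidablePresentation Q) (x : ℕ × ℕ) : ℕ × Q := (x.1, dq P x.2)

/-- the construction, in the algebra -/
noncomputable def LQ (t : ℕ) : List (ℕ × Q) := (F.LC hQ cA t).map (dp P)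

end Fns

end Codes

end Pool.Agent.Lib45
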