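import Pool.Agent.Lib_helper45.ThinImpl

/-!
The main verification: the ideal constructed for the c.e. set `A` is c.e., maximal, and Turing
equivalent to `A`.
-/

namespace Pool.Agent.Lib45

open Pool.Agent.CeIdeals
open Nat.Partrec (Code)

namespace Fns

variable {Q : Type*} [BooleanAlgebra Q] {P : DecidablePresentation Q} (F : Fns P)
variable (hQ : ∀ x : Q, x ≠ ⊥ → ∃ y, ⊥ < y ∧ y < x) (cA : Code)

theorem mem_keepC {t : ℕ} {l : List (ℕ × ℕ)} {x : ℕ × ℕ} :
    x ∈ keepC cA t l ↔ x ∈ l ∧ x.1 ≤ mtag cA t := by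
  unfold keepC
  rw [List.mem_filter, decide_eq_true_iff]

theorem LC_root (t : ℕ) : ∃ x ∈ F.LC hQ cA t, x.1 = 0 := by
  induction t with
  | zero => exact ⟨_, List.mem_singleton.2 rfl, rfl⟩
  | succ t ih =>
    obtain ⟨x, hx, h0⟩ := ih
    rw [LC_succ, stepC]
    refine ⟨_, List.mem_append_left _ (List.mem_map.2 ⟨x, ?_, rfl⟩), h0⟩
    rw [mem_keepC]
    exact ⟨hx, by omega⟩

theorem keep_ne_nil (t : ℕ) : keepC cA t (F.LC hQ cA t) ≠ [] := by
  obtain ⟨x, hx, h0⟩ := F.LC_root hQ cA t
  apply List.ne_nil_of_mem (a := x)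
  rw [mem_keepC]
  exact ⟨hx, by omega⟩

theorem LC_codes (t : ℕ) : ∀ x ∈ F.LC hQ cA t, ∃ p : Q, P.code p = x.2 := by
  induction t with
  | zero =>
    intro x hx
    have hx' : x = (0, P.code ⊤) := List.mem_singleton.1 hx
    rw [hx']
    exact ⟨⊤, rfl⟩
  | succ t ih =>
    intro x hx
    rw [LC_succ, stepC] at hx
    obtain ⟨y, hy⟩ := F.halfC_range hQ (F.best t (keepC cA t (F.LC hQ cA t))).2
    have hy' : F.zC hQ cA t (F.LC hQ cA t) = P.code y := by rw [hy]; rfl
    rcases List.mem_append.1 hx with hx | hx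
    · obtain ⟨x', hx', rfl⟩ := List.mem_map.1 hx
      rw [mem_keepC] at hx'
      obtain ⟨p, hp⟩ := ih x' hx'.1
      refine ⟨F.decQ t (p \ y), ?_⟩
      rw [code_decQ, ← sd_eq, hp, hy']
    · rw [List.mem_singleton.1 hx]
      refine ⟨F.decQ t y, ?_⟩
      rw [code_decQ, hy']

/-- the chosen piece -/
noncomputable def bQ (t : ℕ) : ℕ × Q := dp P (F.best t (keepC cA t (F.LC hQ cA t)))

/-- the new piece -/
noncomputable def zQ (t : ℕ) : Q := dq P (F.zC hQ cA t (F.LC hQ cA t))

theorem code_zQ (t : ℕ) : P.code (F.zQ hQ cA t) = F.zC hQ cA t (F.LC hQ cA t) := by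
  obtain ⟨y, hy⟩ := F.halfC_range hQ (F.best t (keepC cA t (F.LC hQ cA t))).2
  have hy' : F.zC hQ cA t (F.LC hQ cA t) = P.code y := by rw [hy]; rfl
  unfold zQ
  rw [hy', dq_code]

theorem best_mem (t : ℕ) : F.best t (keepC cA t (F.LC hQ cA t)) ∈ F.LC hQ cA t ∧
    (F.best t (keepC cA t (F.LC hQ cA t))).1 ≤ mtag cA t :=
  (mem_keepC cA).1 (F.best_spec t (F.keep_ne_nil hQ cA t)).1

theorem code_bQ (t : ℕ) :
    P.code (F.bQ hQ cA t).2 = (F.best t (keepC cA t (F.LC hQ cA t))).2 := by
  obtain ⟨p, hp⟩ := F.LC_codes hQ cA t _ (F.best_mem hQ cA t).1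
  show P.code (dq P (F.best t (keepC cA t (F.LC hQ cA t))).2) = _
  rw [← hp, dq_code]

theorem mem_LQ {t : ℕ} {x : ℕ × Q} :
    x ∈ F.LQ hQ cA t ↔ (x.1, P.code x.2) ∈ F.LC hQ cA t := by
  unfold LQ
  rw [List.mem_map]
  constructor
  · rintro ⟨y, hy, rfl⟩
    obtain ⟨p, hp⟩ := F.LC_codes hQ cA t y hy
    have : ((dp P y).1, P.code (dp P y).2) = y := by
      show (y.1, P.code (dq P y.2)) = y
      rw [← hp, dq_code, hp]
    rw [this]; exact hy
  · intro h
    refine ⟨_, h, ?_⟩
    show (x.1, dq P (P.code x.2)) = x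
    rw [dq_code]

theorem zQ_spec {t : ℕ} (hb : (F.bQ hQ cA t).2 ≠ ⊥) :
    F.zQ hQ cA t ≠ ⊥ ∧ F.zQ hQ cA t < (F.bQ hQ cA t).2 := by
  obtain ⟨y, hy, h1, h2⟩ := F.halfC_spec hQ hb
  rw [code_bQ] at hy
  have : F.zQ hQ cA t = y := by
    apply P.code_injective
    rw [code_zQ, hy]
    rfl
  rw [this]
  exact ⟨h1, h2⟩

theorem cons [Nontrivial Q] : Cons (mtag cA) F.DQ F.decQ (F.bQ hQ cA) (F.zQ hQ cA)
    (F.LQ hQ cA) where
  nontriv := top_ne_bot
  D_mono := by
    intro e t t' p p' ht hp h
    rw [DQ_iff] at *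
    obtain ⟨q, h1, h2, h3⟩ := h
    exact ⟨q, by omega, inA_mono ht h2, hp.trans h3⟩
  dec_le := F.decQ_le
  dec_ne_bot := F.decQ_ne_bot
  dec_decides := F.decQ_decides
  zero := by
    show [dp P (0, P.code ⊤)] = _
    show [(0, dq P (P.code ⊤))] = _
    rw [dq_code]
  b_mem := fun t => List.mem_map.2 ⟨_, (F.best_mem hQ cA t).1, rfl⟩
  b_le := fun t => (F.best_mem hQ cA t).2
  z_ne_bot := fun t hb => (F.zQ_spec hQ cA hb).1
  z_lt := fun t hb => (F.zQ_spec hQ cA hb).2
  b_max := by
    intro t x hx hxm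
    rw [mem_LQ] at hx
    rw [st_eq, st_eq, code_bQ]
    exact (F.best_spec t (F.keep_ne_nil hQ cA t)).2 (x.1, P.code x.2)
      ((mem_keepC cA).2 ⟨hx, hxm⟩)
  step := by
    intro t
    unfold LQ
    rw [LC_succ, stepC, List.map_append, List.map_map, List.filter_map, List.map_map]
    congr 1
    · show _ = List.map _ (keepC cA t (F.LC hQ cA t))
      apply List.map_congr_left
      intro x hx
      obtain ⟨p, hp⟩ := F.LC_codes hQ cA t x ((mem_keepC cA).1 hx).1
      show (x.1, dq P (F.decC t (F.sd x.2 (F.zC hQ cA t (F.LC hQ cA t))))) =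
        (x.1, F.decQ t (dq P x.2 \ F.zQ hQ cA t))
      rw [← hp, dq_code, ← code_zQ, sd_eq]
      rfl
    · show [(mtag cA t, dq P (F.decC t (F.zC hQ cA t (F.LC hQ cA t))))] = _
      rw [← code_zQ]
      rfl
  m_unbounded := fun n => by
    obtain ⟨k, hk⟩ := mtag_unbounded cA n
    exact ⟨k, fun t ht => hk t ht⟩

/-- testing membership at stage `t` -/
def testC (t n : ℕ) : Bool :=
  (F.LC hQ cA t).all (fun x => decide (F.inf n x.2 = P.code ⊥))

theorem computable_testC {α : Type*} [Primcodable α] {t n : α → ℕ} (ht : Computable t)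
    (hn : Computable n) : Computable fun a => F.testC hQ cA (t a) (n a) := by
  unfold testC
  refine computable_all (g := fun a (x : ℕ × ℕ) => decide (F.inf (n a) x.2 = P.code ⊥))
    ((F.computable_LC hQ cA).comp ht) ?_
  exact c_eq (F.inf_comp.comp (hn.comp Computable.fst) (Computable.snd.comp Computable.snd))
    (Computable.const _)

theorem testC_iff {t : ℕ} {a : Q} :
    F.testC hQ cA t (P.code a) = true ↔ ∀ x ∈ F.LQ hQ cA t, Disjoint a x.2 := by
  unfold testC
  rw [List.all_eq_true]
  constructor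
  · intro h x hx
    rw [mem_LQ] at hx
    have := h _ hx
    rw [decide_eq_true_iff] at this
    simp only at this
    rw [F.inf_eq] at this
    exact disjoint_iff.2 (P.code_injective this)
  · intro h x hx
    obtain ⟨p, hp⟩ := F.LC_codes hQ cA t x hx
    have h1 : (x.1, p) ∈ F.LQ hQ cA t := by
      rw [mem_LQ, hp]; exact hx
    have := h _ h1
    rw [decide_eq_true_iff, ← hp, F.inf_eq, disjoint_iff.1 this]

theorem re_exists {f : ℕ → ℕ → Bool} (hf : Computable₂ f) :
    REPred fun n => ∃ t, f n t = true := by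
  have h1 : Partrec fun n => Nat.rfind fun t => Part.some (f n t) :=
    Partrec.rfind hf.partrec₂
  refine h1.dom_re.of_eq fun n => Nat.rfind_dom.trans ?_
  constructor
  · rintro ⟨t, ht, -⟩
    exact ⟨t, (Part.mem_some_iff.1 ht).symm⟩
  · rintro ⟨t, ht⟩
    exact ⟨t, Part.mem_some_iff.2 ht.symm, fun _ => trivial⟩

variable [Nontrivial Q]

/-- the ideal -/
noncomputable def I : Order.Ideal Q := (F.cons hQ cA).ideal

theorem mem_I {a : Q} : a ∈ F.I hQ cA ↔ ∃ t, F.testC hQ cA t (P.code a) = true := by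
  unfold I
  rw [Cons.mem_ideal, Cons.Mem]
  exact exists_congr fun t => (F.testC_iff hQ cA).symm

omit [Nontrivial Q] in
theorem mem_codes_iff {J : Order.Ideal Q} {n : ℕ} :
    n ∈ P.codes J ↔ ∃ a ∈ J, P.code a = n := Iff.rfl

omit [Nontrivial Q] in
theorem code_mem_codes {J : Order.Ideal Q} {a : Q} : P.code a ∈ P.codes J ↔ a ∈ J := by
  rw [mem_codes_iff]
  constructor
  · rintro ⟨b, hb, hab⟩
    rw [← P.code_injective hab]; exact hb
  · intro h
    exact ⟨a, h, rfl⟩

theorem sup_isCE (x : Q) : P.IsCE (F.I hQ cA ⊔ Order.Ideal.principal x) := by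
  have h1 : Computable₂ fun n t : ℕ => (F.isC n && F.testC hQ cA t (F.sd n (P.code x))) := by
    refine c_and (F.isC_comp.comp Computable.fst) ?_
    exact F.computable_testC hQ cA Computable.snd
      (F.computable_sd Computable.fst (Computable.const _))
  refine (re_exists h1).of_eq fun n => ?_
  constructor
  · rintro ⟨t, ht⟩
    rw [Bool.and_eq_true] at ht
    obtain ⟨a, rfl⟩ := (F.isC_iff n).1 ht.1
    have h2 : a \ x ∈ F.I hQ cA := by
      rw [mem_I]
      refine ⟨t, ?_⟩
      rw [← sd_eq]; exact ht.2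
    show P.code a ∈ P.codes _
    rw [code_mem_codes, Order.Ideal.mem_sup]
    exact ⟨_, h2, x, Order.Ideal.mem_principal_self, by rw [sdiff_sup_self]; exact le_sup_left⟩
  · intro hn
    obtain ⟨a, ha, rfl⟩ := (mem_codes_iff).1 hn
    rw [Order.Ideal.mem_sup] at ha
    obtain ⟨i, hi, j, hj, hij⟩ := ha
    rw [Order.Ideal.mem_principal] at hj
    have h2 : a \ x ∈ F.I hQ cA := by
      refine (F.I hQ cA).lower ?_ hi
      rw [sdiff_le_iff, sup_comm]
      exact hij.trans (sup_le_sup_left hj _)
    rw [mem_I] at h2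
    obtain ⟨t, ht⟩ := h2
    refine ⟨t, ?_⟩
    rw [Bool.and_eq_true]
    refine ⟨(F.isC_iff _).2 ⟨a, rfl⟩, ?_⟩
    rw [sd_eq]; exact ht

theorem I_isCE : P.IsCE (F.I hQ cA) := by
  have := F.sup_isCE hQ cA ⊥
  have h2 : F.I hQ cA ⊔ Order.Ideal.principal (⊥ : Q) = F.I hQ cA := by
    rw [sup_eq_left, Order.Ideal.principal_le_iff]
    exact Order.Ideal.bot_mem _
  rwa [h2] at this

theorem isMaximal : P.IsMaximal (F.I hQ cA) where
  ce := F.I_isCE hQ cA
  infinite_above := by
    refine (F.cons hQ cA).infinite_family ?_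
    intro x
    exact ⟨F.sup_isCE hQ cA x, le_sup_left⟩
  principal_above := by
    intro J hJ hIJ
    obtain ⟨c, hc⟩ := exists_code_of_re hJ
    refine (F.cons hQ cA).principal (Encodable.encode c) J hIJ ?_ ?_
    · intro t p hp
      rw [DQ_iff] at hp
      obtain ⟨q, -, h2, h3⟩ := hp
      rw [Denumerable.ofNat_encode] at h2
      have h4 := (hc _).2 (inA_iff.1 ⟨t, h2⟩)
      rw [code_mem_codes] at h4
      exact J.lower h3 h4
    · intro p hp
      obtain ⟨t, ht⟩ := inA_iff.2 ((hc (P.code p)).1 (code_mem_codes.2 hp))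
      refine ⟨max t (P.code p + 1), ?_⟩
      rw [DQ_iff]
      refine ⟨p, by omega, ?_, le_rfl⟩
      rw [Denumerable.ofNat_encode]
      exact inA_mono (le_max_left _ _) ht

/-! ### Turing reductions -/

/-- characteristic function -/
noncomputable def ch (A : Set ℕ) : ℕ → ℕ := A.indicator (fun _ => 1)

omit [Nontrivial Q] in
theorem ch_of_mem {A : Set ℕ} {n : ℕ} (h : n ∈ A) : ch A n = 1 := Set.indicator_of_mem h _

theorem ch_of_not_mem {A : Set ℕ} {n : ℕ} (h : n ∉ A) : ch A n = 0 :=
  Set.indicator_of_notMem h _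

theorem ch_eq_zero_iff {A : Set ℕ} {n : ℕ} : ch A n = 0 ↔ n ∉ A := by
  constructor
  · intro h h'
    rw [ch_of_mem h'] at h
    exact absurd h one_ne_zero
  · exact ch_of_not_mem

theorem totIn_ch (A : Set ℕ) : TotIn {charFun A} (ch A) :=
  RecursiveIn.oracle _ (Set.mem_singleton _)

theorem turing_of_totIn {A B : Set ℕ} {f : ℕ → ℕ} (hf : TotIn {charFun A} f)
    (h : ∀ n, f n = ch B n) : TuringReducible (charFun B) (charFun A) := by
  have : f = ch B := funext h
  subst this
  exact hf

/-- violations -/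
noncomputable def viol (A : Set ℕ) (t k : ℕ) : ℕ :=
  Nat.rec (motive := fun _ => ℕ) 0
    (fun y IH => IH + ch A y * bif inA cA (t + 1) y then 0 else 1) k

theorem viol_eq_zero {A : Set ℕ} {t k : ℕ} :
    viol cA A t k = 0 ↔ ∀ n < k, n ∈ A → inA cA (t + 1) n = true := by
  induction k with
  | zero => simp [viol]
  | succ k ih =>
    have h1 : viol cA A t (k + 1) = viol cA A t k + ch A k * bif inA cA (t + 1) k then 0 else 1 :=
      rfl
    rw [h1, Nat.add_eq_zero_iff, ih]
    constructor
    · rintro ⟨h2, h3⟩ n hn hnA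
      rcases Nat.lt_succ_iff_lt_or_eq.1 hn with hn | rfl
      · exact h2 n hn hnA
      · rw [ch_of_mem hnA] at h3
        by_contra hcon
        rw [Bool.not_eq_true] at hcon
        rw [hcon] at h3
        exact absurd h3 (by decide)
    · intro h
      refine ⟨fun n hn => h n (by omega), ?_⟩
      by_cases hk : k ∈ A
      · rw [h k (by omega) hk]; simp
      · rw [ch_of_not_mem hk]; simp

theorem totIn_viol (A : Set ℕ) :
    TotIn {charFun A} (fun t => viol cA A t (mtag cA t)) := by
  have hstep : TotIn {charFun A} (fun q => q.unpair.2.unpair.2 +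
      ch A q.unpair.2.unpair.1 * bif inA cA (q.unpair.1 + 1) q.unpair.2.unpair.1 then 0 else 1) := by
    have hF : Computable₂ fun (q v : ℕ) => q.unpair.2.unpair.2 +
        v * bif inA cA (q.unpair.1 + 1) q.unpair.2.unpair.1 then 0 else 1 := by
      have hq1 : Computable fun p : ℕ × ℕ => p.1.unpair.1 :=
        Computable.fst.comp (Computable.unpair.comp Computable.fst)
      have hq2 : Computable fun p : ℕ × ℕ => p.1.unpair.2.unpair :=
        Computable.unpair.comp (Computable.snd.comp (Computable.unpair.comp Computable.fst))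
      refine c_add (Computable.snd.comp hq2) (c_mul Computable.snd
        (Computable.cond ?_ (Computable.const _) (Computable.const _)))
      exact computable_inA cA (Computable.succ.comp hq1) (Computable.fst.comp hq2)
    refine TotIn.comp₂ hF (TotIn.of_computable Computable.id) ?_
    refine (totIn_ch A).comp (TotIn.of_computable ?_)
    exact Computable.fst.comp (Computable.unpair.comp (Computable.snd.comp Computable.unpair))
  have hprec := TotIn.prec (f := fun _ => 0) (TotIn.of_computable (Computable.const _)) hstep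
  have hcomp := hprec.comp (TotIn.pair (TotIn.of_computable Computable.id)
    (TotIn.of_computable (computable_mtag cA)))
  simpa [viol] using hcomp

theorem le_one {A : Set ℕ} (hA : ∀ n, n ∈ A ↔ ∃ t, inA cA t n = true) :
    TuringReducible (charFun (P.codes (F.I hQ cA))) (charFun A) := by
  classical
  have hex : ∀ n, ∃ t, n ≤ t ∧ viol cA A t (mtag cA t) = 0 := by
    intro n
    obtain ⟨t, ht, hT⟩ := Cons.exists_true (mtag cA) n
    refine ⟨t, ht, ?_⟩
    rw [viol_eq_zero]
    intro i hi hiA
    exact (true_iff cA t).1 hT i hi ((hA i).1 hiA)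
  have hP : TotIn {charFun A} (fun p => if (p.unpair.1 ≤ p.unpair.2 ∧
      viol cA A p.unpair.2 (mtag cA p.unpair.2) = 0) then 0 else 1) := by
    have hF : Computable₂ fun (p v : ℕ) =>
        bif (decide (p.unpair.1 ≤ p.unpair.2) && decide (v = 0)) then 0 else 1 := by
      refine Computable.cond (c_and (c_le ?_ ?_) (c_eq Computable.snd (Computable.const _)))
        (Computable.const _) (Computable.const _)
      · exact Computable.fst.comp (Computable.unpair.comp Computable.fst)
      · exact Computable.snd.comp (Computable.unpair.comp Computable.fst)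
    have h2 := TotIn.comp₂ hF (TotIn.of_computable Computable.id)
      ((totIn_viol cA A).comp (TotIn.of_computable (Computable.snd.comp Computable.unpair)))
    refine cast (congrArg _ (funext fun p => ?_)) h2
    by_cases h3 : p.unpair.1 ≤ p.unpair.2 <;>
      by_cases h4 : viol cA A p.unpair.2 (mtag cA p.unpair.2) = 0 <;> simp [h3, h4]
  have hg := TotIn.find (P := fun n t => n ≤ t ∧ viol cA A t (mtag cA t) = 0) hP hex
  have hH : Computable₂ fun n t : ℕ =>
      bif (F.isC n && F.testC hQ cA (t + 1) n) then 1 else 0 := by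
    refine Computable.cond (c_and (F.isC_comp.comp Computable.fst) ?_)
      (Computable.const _) (Computable.const _)
    exact F.computable_testC hQ cA (Computable.succ.comp Computable.snd) Computable.fst
  have hfin := TotIn.comp₂ hH (TotIn.of_computable Computable.id) hg
  refine turing_of_totIn hfin fun n => ?_
  obtain ⟨h1, h2⟩ := Nat.find_spec (hex n)
  set t := Nat.find (hex n) with htdef
  have hT : Cons.True_ (mtag cA) t := by
    rw [true_iff]
    intro i hi hi'
    exact viol_eq_zero cA |>.1 h2 i hi ((hA i).2 hi')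
  by_cases hn : n ∈ P.codes (F.I hQ cA)
  · rw [ch_of_mem hn]
    obtain ⟨a, ha, rfl⟩ := mem_codes_iff.1 hn
    have h4 : F.testC hQ cA (t + 1) (P.code a) = true := by
      rw [testC_iff]
      intro x hx
      by_contra hnd
      have hdec : ∀ p, F.decQ (P.code a) p ≤ a ∨ Disjoint (F.decQ (P.code a) p) a := by
        intro p
        rcases F.decQ_cases (P.code a) p with ⟨-, h2, h4⟩ | ⟨q', hq', -, -, h2⟩
        · right; rw [h2]; exact h4 a rfl
        · left; rw [h2, P.code_injective hq']; exact inf_le_right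
      rcases (F.cons hQ cA).decided_of hdec (show P.code a + 1 ≤ t + 1 by omega) x hx with h5 | h5
      · exact (F.cons hQ cA).perm_not_mem ((F.cons hQ cA).all_perm hT hx)
          ((F.I hQ cA).lower h5 ha)
      · exact hnd h5.symm
    have h5 : F.isC (P.code a) = true := (F.isC_iff _).2 ⟨a, rfl⟩
    simp only [id]
    rw [h4, h5]; rfl
  · rw [ch_of_not_mem hn]
    have h4 : (F.isC n && F.testC hQ cA (t + 1) n) = false := by
      by_contra hcon
      rw [Bool.not_eq_false, Bool.and_eq_true] at hcon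
      obtain ⟨a, rfl⟩ := (F.isC_iff n).1 hcon.1
      exact hn (code_mem_codes.2 ((F.mem_I hQ cA).2 ⟨_, hcon.2⟩))
    simp only [id]
    rw [h4]; rfl

/-- the code of the new piece after deciding -/
def newC (t : ℕ) : ℕ := F.decC t (F.zC hQ cA t (F.LC hQ cA t))

section

attribute [local irreducible] zC LC decC

omit [Nontrivial Q] in
theorem computable_newC : Computable (F.newC hQ cA) := by
  have h0 : Computable fun t : ℕ => (t, F.LC hQ cA t) :=
    Computable.pair Computable.id (F.computable_LC hQ cA)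
  have h1 : Computable fun t : ℕ => F.zC hQ cA t (F.LC hQ cA t) :=
    (F.computable_zC hQ cA).comp h0
  have h2 : Computable fun t : ℕ => F.decC t (F.zC hQ cA t (F.LC hQ cA t)) :=
    F.computable_decC Computable.id h1
  exact h2.of_eq fun t => by rw [newC]

end

theorem newC_iff (t : ℕ) :
    F.newC hQ cA t ∉ P.codes (F.I hQ cA) ↔ Cons.True_ (mtag cA) t := by
  have h1 : F.newC hQ cA t = P.code (F.decQ t (F.zQ hQ cA t)) := by
    rw [code_decQ, code_zQ]; rfl
  rw [h1, code_mem_codes]
  exact (F.cons hQ cA).new_mem_iff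

theorem le_two {A : Set ℕ} (hA : ∀ n, n ∈ A ↔ ∃ t, inA cA t n = true) :
    TuringReducible (charFun A) (charFun (P.codes (F.I hQ cA))) := by
  classical
  set B := P.codes (F.I hQ cA) with hB
  have hex : ∀ n, ∃ t, n < mtag cA t ∧ ch B (F.newC hQ cA t) = 0 := by
    intro n
    obtain ⟨k, hk⟩ := mtag_unbounded cA n
    obtain ⟨t, ht, hT⟩ := Cons.exists_true (mtag cA) k
    refine ⟨t, hk t ht, ?_⟩
    rw [ch_eq_zero_iff, hB, newC_iff]
    exact hT
  have hP : TotIn {charFun B} (fun p => if (p.unpair.1 < mtag cA p.unpair.2 ∧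
      ch B (F.newC hQ cA p.unpair.2) = 0) then 0 else 1) := by
    have hF : Computable₂ fun (p v : ℕ) =>
        bif (decide (p.unpair.1 < mtag cA p.unpair.2) && decide (v = 0)) then 0 else 1 := by
      refine Computable.cond (c_and (c_lt ?_ ?_) (c_eq Computable.snd (Computable.const _)))
        (Computable.const _) (Computable.const _)
      · exact Computable.fst.comp (Computable.unpair.comp Computable.fst)
      · exact (computable_mtag cA).comp
          (Computable.snd.comp (Computable.unpair.comp Computable.fst))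
    have h2 := TotIn.comp₂ hF (TotIn.of_computable Computable.id)
      ((totIn_ch B).comp ((TotIn.of_computable (F.computable_newC hQ cA)).comp
        (TotIn.of_computable (Computable.snd.comp Computable.unpair))))
    refine cast (congrArg _ (funext fun p => ?_)) h2
    by_cases h3 : p.unpair.1 < mtag cA p.unpair.2 <;>
      by_cases h4 : ch B (F.newC hQ cA p.unpair.2) = 0 <;> simp [h3, h4]
  have hg := TotIn.find (P := fun n t => n < mtag cA t ∧ ch B (F.newC hQ cA t) = 0) hP hex
  have hH : Computable₂ fun n t : ℕ => bif inA cA (t + 1) n then 1 else 0 := by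
    refine Computable.cond ?_ (Computable.const _) (Computable.const _)
    exact computable_inA cA (Computable.succ.comp Computable.snd) Computable.fst
  have hfin := TotIn.comp₂ hH (TotIn.of_computable Computable.id) hg
  refine turing_of_totIn hfin fun n => ?_
  obtain ⟨h1, h2⟩ := Nat.find_spec (hex n)
  set t := Nat.find (hex n) with htdef
  rw [ch_eq_zero_iff, hB, newC_iff, true_iff] at h2
  simp only [id]
  by_cases hn : n ∈ A
  · rw [ch_of_mem hn, h2 n h1 ((hA n).1 hn)]; rfl
  · have h4 : inA cA (t + 1) n = false := by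
      by_contra hcon
      rw [Bool.not_eq_false] at hcon
      exact hn ((hA n).2 ⟨_, hcon⟩)
    rw [ch_of_not_mem hn, h4]; rfl

end Fns

/-- **Main theorem**: for every c.e. set there is a maximal ideal of the same degree. -/
theorem exists_maximal {Q : Type*} [BooleanAlgebra Q] [Nontrivial Q]
    (hQ : ∀ x : Q, x ≠ ⊥ → ∃ y, ⊥ < y ∧ y < x) (P : DecidablePresentation Q)
    {A : Set ℕ} (hA : REPred fun n => n ∈ A) :
    ∃ I : Order.Ideal Q, P.IsMaximal I ∧ degree (P.codes I) = degree A := by
  obtain ⟨F⟩ := exists_fns P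
  obtain ⟨c, hc⟩ := exists_code_of_re hA
  have hA' : ∀ n, n ∈ A ↔ ∃ t, inA c t n = true := fun n => (hc n).trans inA_iff.symm
  refine ⟨F.I hQ c, F.isMaximal hQ c, ?_⟩
  exact Quotient.sound ⟨F.le_one hQ c hA', F.le_two hQ c hA'⟩

end Pool.Agent.Lib45
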